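import Pool.Agent.helper17.MK.Spec

/-!
# Four clusters: row EM
-/

set_option autoImplicit false

namespace Pool.Agent.MK

open Finset Real Pool.Agent.helper39.MT Pool.Agent.helper85.FC

section
variable {ι : Type} [Fintype ι] [DecidableEq ι] {k : ℕ}

/-- the union of two labellings -/
def EM_join (τ τ' : ι → Option (Fin k)) : ι → Option (Fin k) :=
  fun p => if τ p = none then τ' p else τ p

/-- compatible labellings -/
def EM_comp (τ τ' : ι → Option (Fin k)) : Prop := ∀ p, τ p = none ∨ τ' p = none ∨ τ p = τ' p

omit [DecidableEq ι] in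
theorem EM_ind (τ τ' e : ι → Option (Fin k)) [Decidable (EM_comp τ τ')] :
    ind τ e * ind τ' e = if EM_comp τ τ' then ind (EM_join τ τ') e else 0 := by
  unfold ind
  rw [← prod_mul_distrib]
  split_ifs with h
  · refine prod_congr rfl fun p _ => ?_
    unfold EM_join
    rcases h p with h1 | h1 | h1
    · rw [if_pos h1, if_pos h1, one_mul]
    · by_cases h2 : τ p = none
      · rw [if_pos h2, if_pos h1, if_pos h2, if_pos h1, one_mul]
      · rw [if_neg h2, if_pos h1, if_neg h2, if_neg h2, mul_one]
    · by_cases h2 : τ p = none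
      · rw [if_pos h2, if_pos h2, one_mul]
      · rw [← h1, if_neg h2, if_neg h2]
        split_ifs <;> norm_num
  · unfold EM_comp at h
    push Not at h
    obtain ⟨p, h1, h2, h3⟩ := h
    refine prod_eq_zero (mem_univ p) ?_
    rw [if_neg h1, if_neg h2]
    by_cases h4 : e p = τ p
    · rw [if_pos h4, if_neg (fun h5 => h3 (h4.symm.trans h5)), mul_zero]
    · rw [if_neg h4, zero_mul]

open Classical in
/-- the number of pairs with a given union -/
theorem EM_card (ρ : ι → Option (Fin k)) :
    ((univ : Finset ((ι → Option (Fin k)) × (ι → Option (Fin k)))).filter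
      (fun t => EM_comp t.1 t.2 ∧ EM_join t.1 t.2 = ρ)).card ≤ 3 ^ (supp ρ).card := by
  have hcard : (univ : Finset (supp ρ → Fin 3)).card = 3 ^ (supp ρ).card := by
    rw [card_univ, Fintype.card_fun, Fintype.card_fin, Fintype.card_coe]
  rw [← hcard]
  refine card_le_card_of_injOn
    (fun t p => if t.2 (p : ι) = none then (0 : Fin 3) else if t.1 (p : ι) = none then 1 else 2)
    (fun _ _ => mem_coe.2 (mem_univ _)) ?_
  intro s hs t ht hst
  rw [mem_coe, mem_filter] at hs ht
  obtain ⟨-, hsc, hsj⟩ := hs
  obtain ⟨-, htc, htj⟩ := ht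
  have key : ∀ p, s.1 p = t.1 p ∧ s.2 p = t.2 p := by
    intro p
    have e1 := congrFun hsj p
    have e2 := congrFun htj p
    unfold EM_join at e1 e2
    by_cases hp : ρ p = none
    · rw [hp] at e1 e2
      have a1 : s.1 p = none := by
        by_contra h; rw [if_neg h] at e1; exact h e1
      have a2 : t.1 p = none := by
        by_contra h; rw [if_neg h] at e2; exact h e2
      rw [if_pos a1] at e1
      rw [if_pos a2] at e2
      exact ⟨a1.trans a2.symm, e1.trans e2.symm⟩
    · have hp' : p ∈ supp ρ := by
        unfold supp; rw [mem_filter]; exact ⟨mem_univ _, hp⟩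
      have h3 := congrFun hst ⟨p, hp'⟩
      simp only at h3
      have hs2 := hsc p
      have ht2 := htc p
      by_cases b1 : s.2 p = none
      · rw [if_pos b1] at h3
        have b2 : t.2 p = none := by
          by_contra h
          rw [if_neg h] at h3
          split_ifs at h3
          · exact absurd h3 (by decide)
          · exact absurd h3 (by decide)
        have c1 : s.1 p = ρ p := by
          by_cases d : s.1 p = none
          · rw [if_pos d, b1] at e1; exact absurd e1.symm hp
          · rwa [if_neg d] at e1
        have c2 : t.1 p = ρ p := by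
          by_cases d : t.1 p = none
          · rw [if_pos d, b2] at e2; exact absurd e2.symm hp
          · rwa [if_neg d] at e2
        exact ⟨c1.trans c2.symm, b1.trans b2.symm⟩
      · rw [if_neg b1] at h3
        have b2 : t.2 p ≠ none := by
          intro h
          rw [if_pos h] at h3
          split_ifs at h3
          · exact absurd h3 (by decide)
          · exact absurd h3 (by decide)
        rw [if_neg b2] at h3
        by_cases d1 : s.1 p = none
        · rw [if_pos d1] at h3 e1
          have d2 : t.1 p = none := by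
            by_contra h
            rw [if_neg h] at h3
            exact absurd h3 (by decide)
          rw [if_pos d2] at e2
          exact ⟨d1.trans d2.symm, e1.trans e2.symm⟩
        · rw [if_neg d1] at h3 e1
          have d2 : t.1 p ≠ none := by
            intro h
            rw [if_pos h] at h3
            exact absurd h3 (by decide)
          rw [if_neg d2] at e2
          have f1 : s.2 p = s.1 p := by
            rcases hs2 with h | h | h
            · exact absurd h d1
            · exact absurd h b1
            · exact h.symm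
          have f2 : t.2 p = t.1 p := by
            rcases ht2 with h | h | h
            · exact absurd h d2
            · exact absurd h b2
            · exact h.symm
          exact ⟨e1.trans e2.symm, f1.trans ((e1.trans e2.symm).trans f2.symm)⟩
  exact Prod.ext (funext fun p => (key p).1) (funext fun p => (key p).2)

end

theorem EM : EM_stmt := by
  classical
  intro ι _ _ k pr A A' M M' h h' Y Y' X X' hpr hM hM' hh hh' hY hY' H H'
  obtain ⟨c, c1, c2, c3⟩ := H
  obtain ⟨d, d1, d2, d3⟩ := H'
  have hh1 : (1 : ℝ) ≤ h := by exact_mod_cast hh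
  have hh1' : (1 : ℝ) ≤ h' := by exact_mod_cast hh'
  refine ⟨fun ρ => ∑ t : (ι → Option (Fin k)) × (ι → Option (Fin k)),
    if EM_comp t.1 t.2 ∧ EM_join t.1 t.2 = ρ then c t.1 * d t.2 else 0, ?_, ?_, ?_⟩
  · intro e
    have e1 : X e * X' e = ∑ t : (ι → Option (Fin k)) × (ι → Option (Fin k)),
        (c t.1 * d t.2) * (ind t.1 e * ind t.2 e) := by
      rw [c1 e, d1 e, sum_mul_sum, ← univ_product_univ, sum_product]
      refine sum_congr rfl fun τ _ => sum_congr rfl fun τ' _ => ?_
      ring
    show X e * X' e = _
    rw [e1]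
    simp only [sum_mul]
    rw [sum_comm]
    refine sum_congr rfl fun t _ => ?_
    rw [EM_ind]
    by_cases hc : EM_comp t.1 t.2
    · rw [if_pos hc, sum_eq_single (EM_join t.1 t.2)]
      · rw [if_pos ⟨hc, rfl⟩]
      · intro ρ _ hρ
        rw [if_neg (fun h1 => hρ h1.2.symm), zero_mul]
      · intro h1
        exact absurd (mem_univ _) h1
    · rw [if_neg hc, mul_zero, sum_eq_zero]
      intro ρ _
      rw [if_neg (fun h1 => hc h1.1), zero_mul]
  · intro ρ
    have b1 : |∑ t : (ι → Option (Fin k)) × (ι → Option (Fin k)),
        (if EM_comp t.1 t.2 ∧ EM_join t.1 t.2 = ρ then c t.1 * d t.2 else 0)| ≤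
        ∑ t ∈ (univ : Finset ((ι → Option (Fin k)) × (ι → Option (Fin k)))).filter
          (fun t => EM_comp t.1 t.2 ∧ EM_join t.1 t.2 = ρ),
          M * M' * ((h : ℝ) * h') ^ (supp ρ).card := by
      refine (abs_sum_le_sum_abs _ _).trans ?_
      rw [sum_filter]
      refine sum_le_sum fun t _ => ?_
      split_ifs with ht
      · have s1 : supp t.1 ⊆ supp ρ := by
          intro p hp
          unfold supp at hp ⊢
          rw [mem_filter] at hp ⊢
          refine ⟨mem_univ _, ?_⟩
          rw [← ht.2]
          unfold EM_join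
          rw [if_neg hp.2]
          exact hp.2
        have s2 : supp t.2 ⊆ supp ρ := by
          intro p hp
          unfold supp at hp ⊢
          rw [mem_filter] at hp ⊢
          refine ⟨mem_univ _, ?_⟩
          rw [← ht.2]
          unfold EM_join
          split_ifs with h1
          · exact hp.2
          · exact h1
        rw [abs_mul]
        have t1 : |c t.1| ≤ M * (h : ℝ) ^ (supp ρ).card :=
          (c2 t.1).trans (mul_le_mul_of_nonneg_left
            (pow_le_pow_right₀ hh1 (card_le_card s1)) hM)
        have t2 : |d t.2| ≤ M' * (h' : ℝ) ^ (supp ρ).card :=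
          (d2 t.2).trans (mul_le_mul_of_nonneg_left
            (pow_le_pow_right₀ hh1' (card_le_card s2)) hM')
        calc |c t.1| * |d t.2| ≤ (M * (h : ℝ) ^ (supp ρ).card) * (M' * (h' : ℝ) ^ (supp ρ).card) :=
              mul_le_mul t1 t2 (abs_nonneg _) (by positivity)
          _ = _ := by rw [mul_pow]; ring
      · rw [abs_zero]
    refine b1.trans ?_
    rw [sum_const, nsmul_eq_mul]
    have b2 : ((((univ : Finset ((ι → Option (Fin k)) × (ι → Option (Fin k)))).filter
          (fun t => EM_comp t.1 t.2 ∧ EM_join t.1 t.2 = ρ)).card : ℕ) : ℝ) ≤ 3 ^ (supp ρ).card := by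
      exact_mod_cast EM_card ρ
    calc ((((univ : Finset ((ι → Option (Fin k)) × (ι → Option (Fin k)))).filter
          (fun t => EM_comp t.1 t.2 ∧ EM_join t.1 t.2 = ρ)).card : ℕ) : ℝ) *
          (M * M' * ((h : ℝ) * h') ^ (supp ρ).card)
        ≤ 3 ^ (supp ρ).card * (M * M' * ((h : ℝ) * h') ^ (supp ρ).card) :=
          mul_le_mul_of_nonneg_right b2 (by positivity)
      _ = _ := by push_cast; rw [mul_pow, mul_pow, mul_pow]; ring
  · intro ρ hρ
    obtain ⟨t, -, ht⟩ := exists_ne_zero_of_sum_ne_zero hρ
    have ht1 : EM_comp t.1 t.2 ∧ EM_join t.1 t.2 = ρ := by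
      by_contra h1
      rw [if_neg h1] at ht
      exact ht rfl
    rw [if_pos ht1] at ht
    obtain ⟨a1, a2⟩ := c3 _ (left_ne_zero_of_mul ht)
    obtain ⟨a3, a4⟩ := d3 _ (right_ne_zero_of_mul ht)
    refine ⟨?_, ?_⟩
    · have h1 := T3_dd_le_mul pr hpr ρ t.1 t.2 (by
        intro p hp
        rw [← ht1.2] at hp
        unfold EM_join at hp
        by_cases h2 : t.1 p = none
        · rw [if_pos h2] at hp
          exact Or.inr hp
        · exact Or.inl h2)
      have h2 : (dd pr ρ : ℝ) ≤ (dd pr t.1 : ℝ) * (dd pr t.2 : ℝ) := by exact_mod_cast h1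
      exact h2.trans (mul_le_mul a1 a3 (Nat.cast_nonneg _) hY)
    · intro p i hp
      rw [← ht1.2] at hp
      unfold EM_join at hp
      by_cases h2 : t.1 p = none
      · rw [if_pos h2] at hp
        exact Or.inr (a4 p i hp)
      · rw [if_neg h2] at hp
        exact Or.inl (a2 p i hp)

end Pool.Agent.MK
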