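import Pool.Agent.helper17.MK.Spec
import Pool.Agent.helper51.MT.SA

set_option autoImplicit false

/-!
# Four clusters, row FA: the quadratic form, form `m` prime
-/

namespace Pool.Agent.MK

open Finset Real Pool.Agent.helper39.MT Pool.Agent.helper85.FC

theorem FA_none {k : ℕ} (p : ℝ) (v : Option (Fin k) → ℝ) :
    ∑ s, v s * Phi p s none = v none + (∑ j, v (some j)) / (p - 1) := by
  rw [Fintype.sum_option]
  simp only [Phi, reduceCtorEq, if_false, sub_zero, mul_one, sum_div]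
  congr 1
  refine sum_congr rfl fun j _ => ?_
  ring

theorem FA_some {k : ℕ} (p : ℝ) (v : Option (Fin k) → ℝ) (i : Fin k) :
    ∑ s, v s * Phi p s (some i)
      = v none + (∑ j, v (some j)) / (p - 1) - p / (p - 1) * v (some i) := by
  rw [Fintype.sum_option]
  simp only [Phi, Option.some.injEq, mul_one]
  have : ∀ j, v (some j) * ((1 - if i = j then p else 0) / (p - 1))
      = v (some j) / (p - 1) - (if i = j then p / (p - 1) * v (some i) else 0) := by
    intro j
    split_ifs with h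
    · subst h; ring
    · ring
  rw [sum_congr rfl fun j _ => this j, sum_sub_distrib, sum_ite_eq, if_pos (mem_univ _), sum_div]
  ring

theorem FA_sq {κ : Type*} (s : Finset κ) (w : κ → ℝ) (B c : ℝ) :
    ∑ i ∈ s, (B - c * w i) ^ 2 = s.card * B ^ 2 - 2 * c * B * ∑ i ∈ s, w i
      + c ^ 2 * ∑ i ∈ s, w i ^ 2 := by
  have : ∀ i ∈ s, (B - c * w i) ^ 2 = B ^ 2 - 2 * c * B * w i + c ^ 2 * w i ^ 2 := by
    intro i _; ring
  rw [sum_congr rfl this, sum_add_distrib, sum_sub_distrib, sum_const, nsmul_eq_mul, mul_sum,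
    mul_sum]

/-- the weights of one place -/
noncomputable def FA_mu {k : ℕ} (m m' : Fin k) (t p : ℝ) : Option (Fin k) → ℝ
  | none => 1 - (k - 1) / (p - 1) + t * (1 / (p - 1))
  | some i => if i = m ∨ i = m' then 0 else 1 / (p - 1)

theorem FA_ineq {p a0 S Q t : ℝ} (hp : 9 ≤ p) (hQ : 0 ≤ Q) (ht : t = 0 ∨ t = 1) :
    (1 - 1 / (p - 1) + t * (1 / (p - 1))) * (a0 + S / (p - 1)) ^ 2
      - 2 * (1 / (p - 1)) * (1 + 1 / (p - 1)) * (a0 + S / (p - 1)) * S
      + 1 / (p - 1) * (1 + 1 / (p - 1)) ^ 2 * Q ≤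
    (1 - (1 - t) * (1 / (p - 1))) * (1 + 8 * (1 / (p - 1)) ^ 2) *
      (a0 ^ 2 + 1 / (p - 1) * (1 + 4 * (1 / (p - 1))) * Q) := by
  have hp1 : (0 : ℝ) < p - 1 := by linarith
  have e1 : S / (p - 1) = 1 / (p - 1) * S := by field_simp
  have hq8 : 1 / (p - 1) ≤ 1 / 8 := one_div_le_one_div_of_le (by norm_num) (by linarith)
  have hq0 : 0 < 1 / (p - 1) := by positivity
  rw [e1]
  set q := 1 / (p - 1) with hq
  have q2 : 0 ≤ q ^ 2 := sq_nonneg q
  have q3 : q ^ 3 ≤ 1 / 8 * q ^ 2 := by nlinarith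
  have q21 : q ^ 2 ≤ 1 / 8 * q := by nlinarith
  rcases ht with rfl | rfl
  · -- p in S
    have h1 : (1 - q + 0 * q) * (a0 + q * S) ^ 2 - 2 * q * (1 + q) * (a0 + q * S) * S =
        (1 - q) * a0 ^ 2 - 4 * q ^ 2 * a0 * S - q ^ 2 * (1 + 3 * q) * S ^ 2 := by ring
    have h2 : -(4 * q ^ 2 * a0 * S) ≤ 4 * q ^ 2 * a0 ^ 2 + q ^ 2 * S ^ 2 := by
      have := mul_nonneg q2 (sq_nonneg (2 * a0 + S))
      nlinarith
    have h3 : 0 ≤ 3 * q * (q ^ 2 * S ^ 2) := by positivity
    have h4 : (1 - q + 0 * q) * (a0 + q * S) ^ 2 - 2 * q * (1 + q) * (a0 + q * S) * S ≤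
        (1 - q + 4 * q ^ 2) * a0 ^ 2 := by
      rw [h1]
      nlinarith
    have h5 : 1 - q + 4 * q ^ 2 ≤ (1 - q) * (1 + 8 * q ^ 2) := by
      nlinarith
    have h8 : q * (1 + q) ^ 2 ≤ (1 - q) * (1 + 8 * q ^ 2) * (q * (1 + 4 * q)) := by
      have h9 : (1 + q) ^ 2 ≤ (1 - q) * (1 + 4 * q) := by
        nlinarith
      have h11 : 0 ≤ (1 - q) * (1 + 4 * q) := by nlinarith
      have h12 : (1 - q) * (1 + 4 * q) ≤ (1 - q) * (1 + 4 * q) * (1 + 8 * q ^ 2) := by
        have h13 : 0 ≤ 8 * q ^ 2 := by positivity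
        nlinarith [mul_nonneg h11 h13]
      have h14 : q * (1 + q) ^ 2 ≤ q * ((1 - q) * (1 + 4 * q) * (1 + 8 * q ^ 2)) :=
        mul_le_mul_of_nonneg_left (h9.trans h12) hq0.le
      calc q * (1 + q) ^ 2 ≤ _ := h14
        _ = _ := by ring
    have h15 := mul_le_mul_of_nonneg_right h8 hQ
    have h16 := mul_le_mul_of_nonneg_right h5 (sq_nonneg a0)
    have e3 : (1 - (1 - 0) * q) * (1 + 8 * q ^ 2) * (a0 ^ 2 + q * (1 + 4 * q) * Q) =
      (1 - q) * (1 + 8 * q ^ 2) * a0 ^ 2 +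
        (1 - q) * (1 + 8 * q ^ 2) * (q * (1 + 4 * q)) * Q := by ring
    rw [e3]
    linarith
  · -- p not in S
    have h1 : (1 - q + 1 * q) * (a0 + q * S) ^ 2 - 2 * q * (1 + q) * (a0 + q * S) * S =
        a0 ^ 2 - 2 * q ^ 2 * a0 * S - q ^ 2 * (1 + 2 * q) * S ^ 2 := by ring
    have h2 : -(2 * q ^ 2 * a0 * S) ≤ q ^ 2 * a0 ^ 2 + q ^ 2 * S ^ 2 := by
      have := mul_nonneg q2 (sq_nonneg (a0 + S))
      nlinarith
    have h2' : 0 ≤ 2 * q * (q ^ 2 * S ^ 2) := by positivity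
    have h4 : (1 - q + 1 * q) * (a0 + q * S) ^ 2 - 2 * q * (1 + q) * (a0 + q * S) * S ≤
        (1 + q ^ 2) * a0 ^ 2 := by
      rw [h1]
      nlinarith
    have h3 : q * (1 + q) ^ 2 * Q ≤ q * (1 + 4 * q) * Q := by
      apply mul_le_mul_of_nonneg_right _ hQ
      apply mul_le_mul_of_nonneg_left _ hq0.le
      nlinarith
    have h5 : 0 ≤ 8 * q ^ 2 * (q * (1 + 4 * q) * Q) := by positivity
    have h6 : 0 ≤ 7 * q ^ 2 * a0 ^ 2 := by positivity
    have e3 : (1 - (1 - 1) * q) * (1 + 8 * q ^ 2) * (a0 ^ 2 + q * (1 + 4 * q) * Q) =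
      (1 + q ^ 2) * a0 ^ 2 + 7 * q ^ 2 * a0 ^ 2 + q * (1 + 4 * q) * Q +
        8 * q ^ 2 * (q * (1 + 4 * q) * Q) := by ring
    rw [e3]
    linarith

/-- The local inequality. -/
theorem FA_loc {k : ℕ} {p t : ℝ} (hp : 9 ≤ p) (m m' : Fin k) (hm : m ≠ m')
    (ht : t = 0 ∨ t = 1) (v : Option (Fin k) → ℝ) :
    ∑ e, FA_mu m m' t p e *
        (∑ s, v s * (if s = some m ∨ s = some m' then 0 else Phi p s e)) ^ 2
      ≤ ∑ s, ((1 - (1 - t) * (1 / (p - 1))) * (1 + 8 * (1 / (p - 1)) ^ 2) * (if s = none then 1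
          else 1 / (p - 1) * (1 + 4 * (1 / (p - 1))))) * v s ^ 2 := by
  have hp1 : (0 : ℝ) < p - 1 := by linarith
  have hp0 : (0 : ℝ) < p := by linarith
  set w : Option (Fin k) → ℝ := fun s => if s = some m ∨ s = some m' then 0 else v s with hw
  have h1 : ∀ e, (∑ s, v s * (if s = some m ∨ s = some m' then 0 else Phi p s e)) =
      ∑ s, w s * Phi p s e := by
    intro e
    refine sum_congr rfl fun s _ => ?_
    simp only [hw]
    split_ifs <;> ring
  simp only [h1]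
  rw [Fintype.sum_option (fun e => FA_mu m m' t p e * (∑ s, w s * Phi p s e) ^ 2)]
  simp only [FA_none, FA_some, FA_mu]
  set E : Finset (Fin k) := (univ.erase m).erase m' with hE
  have hm'E : m' ∈ univ.erase m := mem_erase.2 ⟨hm.symm, mem_univ _⟩
  have hwm : w (some m) = 0 := by simp [hw]
  have hwm' : w (some m') = 0 := by simp [hw]
  have hw0 : w none = v none := by simp [hw]
  have hmemE : ∀ i ∈ E, i ≠ m ∧ i ≠ m' := by
    intro i hi
    rw [hE, mem_erase, mem_erase] at hi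
    exact ⟨hi.2.1, hi.1⟩
  have hwi : ∀ i ∈ E, w (some i) = v (some i) := by
    intro i hi
    obtain ⟨h2, h3⟩ := hmemE i hi
    simp [hw, h2, h3]
  have hsplit : ∀ f : Fin k → ℝ, ∑ j, f j = f m + (f m' + ∑ j ∈ E, f j) := by
    intro f
    rw [hE, add_sum_erase _ f hm'E, add_sum_erase univ f (mem_univ m)]
  have hS : ∑ j, w (some j) = ∑ j ∈ E, w (some j) := by
    rw [hsplit (fun j => w (some j)), hwm, hwm', zero_add, zero_add]
  rw [hS, hw0]
  set S := ∑ j ∈ E, w (some j) with hSdef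
  set Q := ∑ j ∈ E, w (some j) ^ 2 with hQ
  set a0 := v none with ha0
  have hk2 : 2 ≤ k := by
    have h2 := m.2
    have h3 := m'.2
    have h4 : (m : ℕ) ≠ m' := fun h => hm (Fin.ext h)
    omega
  have hcard : (E.card : ℝ) = (k : ℝ) - 2 := by
    rw [hE, card_erase_of_mem hm'E, card_erase_of_mem (mem_univ m), card_univ, Fintype.card_fin,
      Nat.sub_sub, Nat.cast_sub hk2]
    norm_num
  have hr : ∑ i : Fin k, (if i = m ∨ i = m' then 0 else 1 / (p - 1))
        * (a0 + S / (p - 1) - p / (p - 1) * w (some i)) ^ 2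
      = 1 / (p - 1) * (((k : ℝ) - 2) * (a0 + S / (p - 1)) ^ 2
        - 2 * (p / (p - 1)) * (a0 + S / (p - 1)) * S + (p / (p - 1)) ^ 2 * Q) := by
    rw [hsplit, if_pos (Or.inl rfl), if_pos (Or.inr rfl), zero_mul, zero_add, zero_mul, zero_add]
    rw [← hcard, hSdef, hQ, ← FA_sq E (fun i => w (some i)), mul_sum]
    refine sum_congr rfl fun i hi => ?_
    obtain ⟨h2, h3⟩ := hmemE i hi
    rw [if_neg (by tauto)]
  rw [hr]
  have hid : (1 - ((k : ℝ) - 1) / (p - 1) + t * (1 / (p - 1))) * (a0 + S / (p - 1)) ^ 2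
      + 1 / (p - 1) * (((k : ℝ) - 2) * (a0 + S / (p - 1)) ^ 2
        - 2 * (p / (p - 1)) * (a0 + S / (p - 1)) * S + (p / (p - 1)) ^ 2 * Q)
      = (1 - 1 / (p - 1) + t * (1 / (p - 1))) * (a0 + S / (p - 1)) ^ 2
      - 2 * (1 / (p - 1)) * (1 + 1 / (p - 1)) * (a0 + S / (p - 1)) * S
      + 1 / (p - 1) * (1 + 1 / (p - 1)) ^ 2 * Q := by
    have e1 : p / (p - 1) = 1 + 1 / (p - 1) := by
      field_simp
      ring
    rw [e1]
    ring
  rw [hid]
  have hQ0 : 0 ≤ Q := sum_nonneg fun i _ => sq_nonneg _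
  refine (FA_ineq hp hQ0 ht).trans ?_
  rw [Fintype.sum_option]
  simp only [if_true, reduceCtorEq, if_false]
  rw [← mul_sum, hsplit (fun i => v (some i) ^ 2)]
  have hQv : ∑ i ∈ E, v (some i) ^ 2 = Q := by
    rw [hQ]
    exact sum_congr rfl fun i hi => by rw [hwi i hi]
  rw [hQv, ← ha0]
  have hc : 0 ≤ (1 - (1 - t) * (1 / (p - 1))) * (1 + 8 * (1 / (p - 1)) ^ 2) := by
    have h2 : 1 / (p - 1) ≤ 1 := by
      rw [div_le_one hp1]; linarith
    have h3 : 0 ≤ 1 / (p - 1) := by positivity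
    have h4 : 0 ≤ 1 - (1 - t) * (1 / (p - 1)) := by
      rcases ht with rfl | rfl
      · linarith
      · linarith
    positivity
  set c := (1 - (1 - t) * (1 / (p - 1))) * (1 + 8 * (1 / (p - 1)) ^ 2) with hcdef
  set d := 1 / (p - 1) * (1 + 4 * (1 / (p - 1))) with hd
  have hd0 : 0 ≤ d := by positivity
  have h5 : 0 ≤ c * d * (v (some m) ^ 2 + v (some m') ^ 2) := by positivity
  have e4 : c * (a0 ^ 2 + d * Q) + c * d * (v (some m) ^ 2 + v (some m') ^ 2) =
    c * 1 * a0 ^ 2 + c * d * (v (some m) ^ 2 + (v (some m') ^ 2 + Q)) := by ring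
  linarith

theorem FA : FA_stmt := by
  intro ι _ _ k pr m m' S z hm hp hz
  have hkap : ∀ p, kap (fun p => mu1 m (pr p : ℝ)) S m m' p =
      FA_mu m m' (if p ∈ S then 0 else 1) (pr p : ℝ) := by
    intro p
    funext x
    cases x with
    | none =>
      simp only [kap, FA_mu, mu1]
      split_ifs <;> first | (ring_nf; done) | (exfalso; tauto)
    | some i =>
      simp only [kap, FA_mu, mu1]
      split_ifs <;> first | rfl | (exfalso; tauto)
  have hFF : ∀ e : ι → Option (Fin k), FF pr z e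
      = ∑ σ : ι → Option (Fin k), z σ *
        ∏ p, (if σ p = some m ∨ σ p = some m' then 0 else Phi (pr p : ℝ) (σ p) (e p)) := by
    intro e
    unfold FF
    refine sum_congr rfl fun σ _ => ?_
    by_cases h : z σ = 0
    · rw [h, zero_mul, zero_mul]
    · congr 1
      refine prod_congr rfl fun p _ => ?_
      have h2 := hz σ h p
      rw [if_neg (by tauto)]
  have h9 : ∀ p, (9 : ℝ) ≤ (pr p : ℝ) := fun p => by exact_mod_cast (hp p).1
  have hk9 : ∀ p, 2 * (k : ℝ) + 2 ≤ (pr p : ℝ) := fun p => by exact_mod_cast (hp p).2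
  have ht : ∀ p, (if p ∈ S then (0 : ℝ) else 1) = 0 ∨ (if p ∈ S then (0 : ℝ) else 1) = 1 := by
    intro p
    split_ifs
    · exact Or.inl rfl
    · exact Or.inr rfl
  have h := tensor (ι := ι) (Ω := Option (Fin k)) (S := Option (Fin k)) (T := Option (Fin k))
    (fun p s => (1 - (1 - (if p ∈ S then (0 : ℝ) else 1)) * (1 / ((pr p : ℝ) - 1))) *
      (1 + 8 * (1 / ((pr p : ℝ) - 1)) ^ 2) * (if s = none then 1
          else 1 / ((pr p : ℝ) - 1) * (1 + 4 * (1 / ((pr p : ℝ) - 1)))))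
    (fun p => FA_mu m m' (if p ∈ S then 0 else 1) (pr p : ℝ))
    (fun _ s e => if s = e then (1 : ℝ) else 0)
    (fun p s e => if s = some m ∨ s = some m' then 0 else Phi (pr p : ℝ) s e)
    (fun p e => by
      have h1 := h9 p
      have h0 : (0 : ℝ) < (pr p : ℝ) - 1 := by linarith
      have h2 : 1 / ((pr p : ℝ) - 1) ≤ 1 := by
        rw [div_le_one h0]; linarith
      have h3 : 0 ≤ 1 - (1 - (if p ∈ S then (0 : ℝ) else 1)) * (1 / ((pr p : ℝ) - 1)) := by
        have h4 : 0 ≤ 1 / ((pr p : ℝ) - 1) := by positivity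
        split_ifs <;> linarith
      have h5 : (0 : ℝ) ≤ (if e = none then 1
          else 1 / ((pr p : ℝ) - 1) * (1 + 4 * (1 / ((pr p : ℝ) - 1)))) := by
        split_ifs <;> positivity
      positivity)
    (fun p t => by
      have h1 := h9 p
      have h2 := hk9 p
      have h00 : (0 : ℝ) < (pr p : ℝ) - 1 := by linarith
      cases t with
      | none =>
        simp only [FA_mu]
        have h3 : ((k : ℝ) - 1) / ((pr p : ℝ) - 1) ≤ 1 := by
          rw [div_le_one h00]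
          have : (0 : ℝ) ≤ k := Nat.cast_nonneg k
          linarith
        have h4 : 0 ≤ 1 / ((pr p : ℝ) - 1) := by positivity
        split_ifs <;> linarith
      | some i =>
        simp only [FA_mu]
        split_ifs
        · exact le_rfl
        · positivity)
    (fun p v => by
      refine (FA_loc (h9 p) m m' hm (ht p) v).trans (le_of_eq ?_)
      refine sum_congr rfl fun s _ => ?_
      congr 2
      simp) z
  simp only [Ex, QF]
  refine le_trans (le_of_eq ?_) (h.trans (le_of_eq ?_))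
  · refine sum_congr rfl fun e _ => ?_
    rw [hFF e]
    congr 1
    exact prod_congr rfl fun p _ => by rw [hkap p]
  · rw [mul_sum, mul_sum]
    refine sum_congr rfl fun e _ => ?_
    have h1 : ∀ σ : ι → Option (Fin k), (∏ p, (if σ p = e p then (1 : ℝ) else 0))
        = if σ = e then 1 else 0 := by
      intro σ
      rw [prod_boole]
      simp [funext_iff]
    simp only [h1]
    have hSprod : (∏ p ∈ S, (1 - 1 / ((pr p : ℝ) - 1))) =
        ∏ p, (1 - (1 - (if p ∈ S then (0 : ℝ) else 1)) * (1 / ((pr p : ℝ) - 1))) := by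
      rw [← prod_subset (subset_univ S)]
      · exact prod_congr rfl fun p hp => by rw [if_pos hp]; ring
      · intro p _ hp
        rw [if_neg hp]
        ring
    rw [hSprod, ← mul_assoc, ← mul_assoc, ← prod_mul_distrib, ← prod_mul_distrib]
    congr 1
    simp

end Pool.Agent.MK
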