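import Pool.Agent.helper17.MK.Spec

/-!
# Four clusters: row NU
-/

set_option autoImplicit false

namespace Pool.Agent.MK

open Finset Real MeasureTheory intervalIntegral Pool.Agent.helper39.MT Pool.Agent.helper85.FC

theorem NU_log : (3922 : ℝ) / 100000 ≤ Real.log (26 / 25) := by
  rw [Real.le_log_iff_exp_le (by norm_num)]
  have := Real.exp_bound' (x := 3922 / 100000) (by norm_num) (by norm_num) (n := 4) (by norm_num)
  refine this.trans ?_
  simp only [Finset.sum_range_succ, Finset.sum_range_zero]
  norm_num [Nat.factorial]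

theorem NU_lo {v : ℝ} (hv : 0 ≤ v) : v - v ^ 2 / 2 ≤ Real.log (1 + v) := by
  refine le_trans ?_ (Real.le_log_one_add_of_nonneg hv)
  rw [le_div_iff₀ (by linarith)]
  nlinarith [pow_nonneg hv 3]

theorem NU : NU_stmt := by
  intro u A F f hu h
  have hA := h.A3
  refine ⟨?_, ?_⟩
  · have h1 := h.Fi 3 (76 / 25) le_rfl (by norm_num) (by linarith)
    rw [h.Fs 3 (by norm_num) le_rfl] at h1
    have h2 : ∫ s in (3 : ℝ)..(76 / 25), f (s - 1) ≤ ∫ s in (3 : ℝ)..(76 / 25), A * ((s - 3) / 2) := by
      refine intervalIntegral.integral_mono_on (by norm_num) ?_ (by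
        apply Continuous.intervalIntegrable
        fun_prop) fun s hs => ?_
      · apply MonotoneOn.intervalIntegrable
        rw [Set.uIcc_of_le (by norm_num)]
        intro x hx y hy hxy
        exact h.fm ⟨by linarith [hx.1], by linarith [hx.2]⟩ ⟨by linarith [hy.1], by linarith [hy.2]⟩ (by
          linarith)
      · rw [h.fs (s - 1) (by linarith [hs.1]) (by linarith [hs.2])]
        have h3 : Real.log (s - 1 - 1) ≤ s - 3 := by
          have := Real.log_le_sub_one_of_pos (x := s - 1 - 1) (by linarith [hs.1])
          linarith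
        have h4 : 0 ≤ Real.log (s - 1 - 1) := Real.log_nonneg (by linarith [hs.1])
        rw [mul_div_assoc]
        refine mul_le_mul_of_nonneg_left ?_ (by linarith)
        exact div_le_div₀ (by linarith) h3 (by norm_num) (by linarith [hs.1])
    have h3 : ∫ s in (3 : ℝ)..(76 / 25), A * ((s - 3) / 2) = A / 2500 := by
      have : ∀ s ∈ Set.uIcc (3 : ℝ) (76 / 25), HasDerivAt (fun s => A * ((s - 3) ^ 2 / 4))
          (A * ((s - 3) / 2)) s := by
        intro s _
        have := ((((hasDerivAt_id s).sub_const 3).pow 2).div_const 4).const_mul A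
        refine this.congr_deriv ?_
        simp only [id_eq, Nat.cast_ofNat, Nat.reduceSub, pow_one]
        ring
      rw [intervalIntegral.integral_eq_sub_of_hasDerivAt this (by
        apply Continuous.intervalIntegrable
        fun_prop)]
      norm_num
      ring
    linarith
  · set b := Real.log (26 / 25) with hb
    have hb0 : 0 ≤ b := Real.log_nonneg (by norm_num)
    have hexp : Real.exp b = 26 / 25 := Real.exp_log (by norm_num)
    have h2 : ∫ σ in (0 : ℝ)..b, A * (25 / 51 * ((26 / 25 - Real.exp σ) - (26 / 25 - Real.exp σ) ^ 2 / 2)) ≤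
        ∫ σ in (0 : ℝ)..b, f (76 / 25 - Real.exp σ) := by
      refine intervalIntegral.integral_mono_on hb0 (by
        apply Continuous.intervalIntegrable
        fun_prop) ?_ fun s hs => ?_
      · apply AntitoneOn.intervalIntegrable
        rw [Set.uIcc_of_le hb0]
        intro x hx y hy hxy
        have e1 : Real.exp x ≤ Real.exp y := Real.exp_le_exp.2 hxy
        have e2 : Real.exp y ≤ 26 / 25 := hexp ▸ Real.exp_le_exp.2 hy.2
        have e3 : 1 ≤ Real.exp x := Real.one_le_exp hx.1
        exact h.fm ⟨by linarith, by linarith⟩ ⟨by linarith, by linarith⟩ (by linarith)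
      · have e2 : Real.exp s ≤ 26 / 25 := hexp ▸ Real.exp_le_exp.2 hs.2
        have e3 : 1 ≤ Real.exp s := Real.one_le_exp hs.1
        rw [h.fs _ (by linarith) (by linarith), mul_div_assoc]
        refine mul_le_mul_of_nonneg_left ?_ (by linarith)
        have e4 := NU_lo (v := 26 / 25 - Real.exp s) (by linarith)
        have e5 : 1 + (26 / 25 - Real.exp s) = 76 / 25 - Real.exp s - 1 := by ring
        rw [e5] at e4
        rw [le_div_iff₀ (by linarith)]
        have e6 : 0 ≤ (26 / 25 - Real.exp s) - (26 / 25 - Real.exp s) ^ 2 / 2 := by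
          nlinarith
        nlinarith
    refine le_trans ?_ h2
    have h3 : ∫ σ in (0 : ℝ)..b, A * (25 / 51 * ((26 / 25 - Real.exp σ) - (26 / 25 - Real.exp σ) ^ 2 / 2)) =
        A * (25 / 51 * (312 / 625 * b - 188 / 10000)) := by
      have : ∀ s ∈ Set.uIcc (0 : ℝ) b, HasDerivAt (fun s => A * (25 / 51 * (312 / 625 * s +
          Real.exp s * (1 / 25) - Real.exp s ^ 2 / 4)))
          (A * (25 / 51 * ((26 / 25 - Real.exp s) - (26 / 25 - Real.exp s) ^ 2 / 2))) s := by
        intro s _
        have e1 := Real.hasDerivAt_exp s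
        have := (((((hasDerivAt_id s).const_mul (312 / 625)).add (e1.mul_const (1 / 25))).sub
          ((e1.pow 2).div_const 4)).const_mul (25 / 51)).const_mul A
        refine this.congr_deriv ?_
        simp only [id_eq, Nat.cast_ofNat, Nat.reduceSub, pow_one]
        ring
      rw [intervalIntegral.integral_eq_sub_of_hasDerivAt this (by
        apply Continuous.intervalIntegrable
        fun_prop), hexp, Real.exp_zero]
      ring
    rw [h3]
    refine mul_le_mul_of_nonneg_left ?_ (by linarith)
    have := NU_log
    rw [← hb] at this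
    linarith

end Pool.Agent.MK
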