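import Pool.Agent.helper17.MK.Spec

/-! Row PT: the sum over all `n`. -/

set_option autoImplicit false

namespace Pool.Agent.MK

open Finset Real Pool.Agent.helper39.MT Pool.Agent.helper85.FC

theorem PT_small (n : ℕ) (δ c ε : ℝ) (hδ : 0 < δ) (hε : 0 < ε) :
    ∃ a₀ : ℝ, ∀ a : ℝ, a₀ ≤ a → c * (a ^ n * Real.exp (-(δ * a))) ≤ ε := by
  have h1 : Filter.Tendsto (fun a : ℝ => δ * a) Filter.atTop Filter.atTop :=
    Filter.tendsto_id.const_mul_atTop hδ
  have h2 := ((Real.tendsto_pow_mul_exp_neg_atTop_nhds_zero n).comp h1).const_mul (c / δ ^ n)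
  rw [mul_zero] at h2
  have h3 := h2.eventually (ge_mem_nhds hε)
  obtain ⟨a₀, ha₀⟩ := Filter.eventually_atTop.1 h3
  refine ⟨a₀, fun a ha => ?_⟩
  have h4 := ha₀ a ha
  have hδn : δ ^ n ≠ 0 := (pow_pos hδ n).ne'
  have h5 : c / δ ^ n * ((δ * a) ^ n * Real.exp (-(δ * a))) = c * (a ^ n * Real.exp (-(δ * a))) := by
    rw [mul_pow]
    field_simp
  rw [← h5]
  exact h4

theorem PT_mass0 (a : ℝ) : 0 ≤ mass a := by
  unfold mass
  exact Finset.sum_nonneg fun n _ => Pool.Agent.helper85.MT.wt_nonneg _ _ _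

theorem PT_PP {w z z' : ℝ} (h : z ≤ z') : RLS.PP w z ⊆ RLS.PP w z' := by
  intro p hp
  unfold RLS.PP at hp ⊢
  rw [Finset.mem_filter, Finset.mem_range] at hp ⊢
  exact ⟨lt_of_lt_of_le hp.1 (Nat.succ_le_succ (Nat.floor_le_floor h)), hp.2⟩

theorem PT_c3 {w a ly : ℝ} {P' K : Finset ℕ} (hP' : P' ⊆ RLS.PP w (Real.exp (ly * a))) (hK : K ⊆ P')
    (h : c3 K ≠ 0) : ∏ p ∈ K, (p : ℝ) ≤ Real.exp (3 * ly * a) := by
  have hc : K.card = 3 := by
    by_contra hcon
    apply h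
    unfold c3
    rw [if_neg hcon]
  have h1 : ∀ p ∈ K, (p : ℝ) ≤ Real.exp (ly * a) := by
    intro p hp
    have h2 := hP' (hK hp)
    unfold RLS.PP at h2
    rw [Finset.mem_filter, Finset.mem_range] at h2
    exact (Nat.le_floor_iff (Real.exp_pos _).le).1 (by omega)
  calc ∏ p ∈ K, (p : ℝ) ≤ ∏ p ∈ K, Real.exp (ly * a) :=
        Finset.prod_le_prod (fun p _ => Nat.cast_nonneg p) h1
    _ = Real.exp (3 * ly * a) := by
        rw [Finset.prod_const, hc, ← Real.exp_nat_mul]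
        congr 1
        push_cast
        ring

theorem PT (h1 : TB_stmt) (h2 : MB_stmt) (h3 : XE_stmt) (h4 : PD_stmt) : PT_stmt := by
  intro k D₀ W A B hStd hk hD b δ ep η la ly hδ hδ8 hep hep1 hη hη8 hla hly hly5 hlev
  obtain ⟨aT, hT⟩ := h1 k D₀ W A B hStd hD η hη (by linarith) 5 (2 * k + 8) 972
  obtain ⟨C, aM, hM⟩ := h2 k b D₀ W δ ep hk hδ hδ8 hep hep1 hStd.Wpos hD hStd.small
  obtain ⟨Ck, hCk, hPD⟩ := h4 k
  obtain ⟨aP, hP⟩ := mass_bounds
  obtain ⟨aS, hS⟩ := PT_small (C + 4) δ 2 1 hδ one_pos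
  refine ⟨|aT| + |aM| + |aP| + |aS| + Ck + 4, ?_⟩
  intro a ha R hR ζ m m' l₀ l P P' U U' hmm hζ hζ2 hl₀ hPP hPP' hl hSg hMn hMn'
  have haT : aT ≤ a := by
    have := le_abs_self aT
    have := abs_nonneg aM
    have := abs_nonneg aP
    have := abs_nonneg aS
    linarith
  have haM : aM ≤ a := by
    have := le_abs_self aM
    have := abs_nonneg aT
    have := abs_nonneg aP
    have := abs_nonneg aS
    linarith
  have haP : aP ≤ a := by
    have := le_abs_self aP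
    have := abs_nonneg aT
    have := abs_nonneg aM
    have := abs_nonneg aS
    linarith
  have haS : aS ≤ a := by
    have := le_abs_self aS
    have := abs_nonneg aT
    have := abs_nonneg aM
    have := abs_nonneg aP
    linarith
  have haC : Ck ≤ a := by
    have := abs_nonneg aM
    have := abs_nonneg aT
    have := abs_nonneg aP
    have := abs_nonneg aS
    linarith
  have ha4 : 4 ≤ a := by
    have := abs_nonneg aM
    have := abs_nonneg aT
    have := abs_nonneg aP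
    have := abs_nonneg aS
    linarith
  have ha0 : 0 < a := by linarith
  -- the size of R
  have hRle : (R : ℝ) ≤ Real.exp (a / 4) := by
    rw [hR]
    exact Nat.floor_le (Real.exp_pos _).le
  have hR2 : 2 ≤ R := by
    rw [hR]
    apply Nat.le_floor
    have h5 : Real.exp 1 ≤ Real.exp (a / 4) := Real.exp_le_exp.2 (by linarith)
    have h6 := Real.add_one_le_exp (1 : ℝ)
    push_cast
    linarith
  have hR0 : (0 : ℝ) < R := by
    have : (2 : ℝ) ≤ R := by exact_mod_cast hR2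
    linarith
  have hlogR : Real.log R ≤ a := by
    have h5 := Real.log_le_log hR0 hRle
    rw [Real.log_exp] at h5
    linarith
  have hlogR0 : 0 ≤ Real.log R := Real.log_natCast_nonneg R
  have hR' : (R : ℝ) ≤ Real.exp a := hRle.trans (Real.exp_le_exp.2 (by linarith))
  -- the product over the places
  have hprod0 : 0 ≤ ∏ p : PS W R, (1 + (k : ℝ) / ((prP W R p : ℝ) - 1)) := by
    refine Finset.prod_nonneg fun p _ => ?_
    have hp : 2 ≤ ((p : ℕ)) := ((mem_PS.1 p.2).2.1).two_le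
    have hp' : (2 : ℝ) ≤ ((p : ℕ) : ℝ) := by exact_mod_cast hp
    have : (0 : ℝ) ≤ (k : ℝ) / ((prP W R p : ℝ) - 1) := by
      apply div_nonneg (Nat.cast_nonneg k)
      show (0 : ℝ) ≤ ((p : ℕ) : ℝ) - 1
      linarith
    linarith
  have hprod : ∏ p : PS W R, (1 + (k : ℝ) / ((prP W R p : ℝ) - 1)) ≤ a ^ (k + 1) := by
    calc ∏ p : PS W R, (1 + (k : ℝ) / ((prP W R p : ℝ) - 1)) ≤ Ck * Real.log R ^ k := hPD W R hR2
      _ ≤ a * a ^ k := by
          apply mul_le_mul haC (pow_le_pow_left₀ hlogR0 hlogR k) (pow_nonneg hlogR0 k) ha0.le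
      _ = a ^ (k + 1) := by ring
  -- the expansion
  have hXE := h3 (PS W R) k (prP W R) ζ l₀ l (Real.exp (δ * a)) P P' m m' (a ^ 3) (Real.exp (η * a))
    (Real.exp (δ * a) ^ b) (Real.exp (la * a)) (Real.exp (3 * ly * a)) Subtype.val_injective
    (fun p => ((mem_PS.1 p.2).2.1).two_le) (by positivity)
    (Real.one_le_exp (by positivity)) (one_le_pow₀ (Real.one_le_exp (by positivity)))
    (Real.one_le_exp (by positivity)) (Real.one_le_exp (by positivity)) hζ hζ2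
    (fun K _ => ⟨hl₀.le1 K, fun h => (hl₀.lev K h).2⟩) hl
    (fun K hK h => PT_c3 hPP' hK h)
  have hX := hXE.2.2.2.2.2.2.2
  have hX' : Expn (prP W R) (fun _ _ => True) (a ^ (2 * k + 8)) 972 (Real.exp ((1 - η) * a))
      (XB (prP W R) ζ l₀ l (Real.exp (δ * a)) P P' m m') := by
    refine hX.mono (fun _ _ h => h) ?_ (by positivity) le_rfl ?_
    · calc (a ^ 3) ^ 2 * (∏ p : PS W R, (1 + (k : ℝ) / ((prP W R p : ℝ) - 1))) ^ 2
          ≤ (a ^ 3) ^ 2 * (a ^ (k + 1)) ^ 2 := by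
            apply mul_le_mul_of_nonneg_left (pow_le_pow_left₀ hprod0 hprod 2) (by positivity)
        _ = a ^ (2 * k + 8) := by ring
    · rw [← Real.exp_nat_mul, ← Real.exp_nat_mul, ← Real.exp_nat_mul, ← Real.exp_add, ← Real.exp_add,
        ← Real.exp_add]
      apply Real.exp_le_exp.2
      have h5 : (2 * η + δ * b + 2 * la + 3 * ly) * a ≤ (1 - η) * a :=
        mul_le_mul_of_nonneg_right hlev ha0.le
      push_cast
      linarith
  have hTA := hT a haT R hR2 hR' _ hX'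
  have hMA := hM a haM R hR ζ m m' l₀ l P P' U U' hmm hζ (fun σ hσ =>
    ⟨(hζ2 σ hσ).1.trans (Real.exp_le_exp.2 (by nlinarith)), (hζ2 σ hσ).2⟩) hl₀ hPP
    (hPP'.trans (PT_PP (Real.exp_le_exp.2 (by nlinarith))))
    (fun K hK => (hl K hK).1) hSg hMn hMn'
  have hpm0 : 0 ≤ mass a := PT_mass0 a
  have hpm2 : mass a ≤ 1 := (hP a haP).2
  have hsmall := hS a haS
  have h6 := (abs_le.1 hTA).2
  have h7 := mul_le_mul_of_nonneg_left hMA hpm0
  have h8 : mass a * (a ^ C * Real.exp (-(δ * a))) ≤ 1 * (a ^ C * Real.exp (-(δ * a))) :=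
    mul_le_mul_of_nonneg_right hpm2 (by positivity)
  have h9 : 1 * (a ^ C * Real.exp (-(δ * a))) ≤ 1 / (2 * a ^ 4) := by
    rw [le_div_iff₀ (by positivity)]
    calc 1 * (a ^ C * Real.exp (-(δ * a))) * (2 * a ^ 4)
        = 2 * (a ^ (C + 4) * Real.exp (-(δ * a))) := by ring
      _ ≤ 1 := hsmall
  have h10 : 1 / a ^ 5 ≤ 1 / (2 * a ^ 4) := by
    apply one_div_le_one_div_of_le (by positivity)
    have : 0 < a ^ 4 := by positivity
    calc 2 * a ^ 4 ≤ a * a ^ 4 := mul_le_mul_of_nonneg_right (by linarith) this.le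
      _ = a ^ 5 := by ring
  have h11 : 1 / (2 * a ^ 4) + 1 / (2 * a ^ 4) = 1 / a ^ 4 := by
    field_simp
    norm_num
  have h12 : mass a * ((1 + ep) * (∏ p ∈ PS W ⌊Real.exp (δ * a)⌋₊,
      (1 - 2 / (p : ℝ))) * QF (prP W R) ζ * (U ^ 2 * U') + a ^ C * Real.exp (-(δ * a))) =
      mass a * ((1 + ep) * (∏ p ∈ PS W ⌊Real.exp (δ * a)⌋₊,
      (1 - 2 / (p : ℝ))) * QF (prP W R) ζ * (U ^ 2 * U')) +
      mass a * (a ^ C * Real.exp (-(δ * a))) := by ring
  rw [h12] at h7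
  linarith

end Pool.Agent.MK
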