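import Pool.Agent.helper17.MK.Spec

/-!
# Four clusters: row RZ
-/

set_option autoImplicit false

namespace Pool.Agent.MK

open Finset Real Pool.Agent.helper39.MT Pool.Agent.helper85.FC

theorem RZ : RZ_stmt := by
  intro ι _ _ k pr m m' z hz e
  unfold FF
  refine sum_congr rfl fun σ _ => ?_
  by_cases h : z σ = 0
  · rw [h, zero_mul, zero_mul]
  · congr 1
    refine prod_congr rfl fun p _ => ?_
    have h1 := hz σ h p
    unfold Phi
    rcases hs : σ p with _ | i
    · rfl
    · simp only
      have h2 : i ≠ m := fun h3 => h1.1 (by rw [hs, h3])
      have h3 : i ≠ m' := fun h4 => h1.2 (by rw [hs, h4])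
      have h4 : rem2 m m' e p = some i ↔ e p = some i := by
        unfold rem2
        by_cases h5 : e p = some m ∨ e p = some m'
        · rw [if_pos h5]
          constructor
          · intro h6; exact absurd h6 (by simp)
          · intro h6
            rcases h5 with h7 | h7
            · rw [h7] at h6; exact absurd (Option.some.inj h6).symm h2
            · rw [h7] at h6; exact absurd (Option.some.inj h6).symm h3
        · rw [if_neg h5]
      by_cases h5 : e p = some i
      · rw [if_pos (h4.2 h5), if_pos h5]
      · rw [if_neg (fun h6 => h5 (h4.1 h6)), if_neg h5]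

end Pool.Agent.MK
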