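import Pool.Agent.helper17.MK.Spec
import Pool.Agent.helper99.FC.T3

/-!
# Four clusters, row TB: the sum over all `n` of a combination of the `ind τ`
-/

set_option autoImplicit false

namespace Pool.Agent.MK

open Finset Real Pool.Agent.helper39.MT Pool.Agent.helper85.FC

theorem TB_small (n : ℕ) (δ c ε : ℝ) (hδ : 0 < δ) (hε : 0 < ε) :
    ∃ a₀ : ℝ, ∀ a : ℝ, a₀ ≤ a → c * (a ^ n * Real.exp (-(δ * a))) ≤ ε := by
  have h1 : Filter.Tendsto (fun a : ℝ => δ * a) Filter.atTop Filter.atTop :=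
    Filter.tendsto_id.const_mul_atTop hδ
  have h2 := ((Real.tendsto_pow_mul_exp_neg_atTop_nhds_zero n).comp h1).const_mul (c / δ ^ n)
  rw [mul_zero] at h2
  have h3 := h2.eventually (ge_mem_nhds hε)
  obtain ⟨a₀, ha₀⟩ := Filter.eventually_atTop.1 h3
  refine ⟨a₀, fun a ha => ?_⟩
  have h4 := ha₀ a ha
  have hδn : δ ^ n ≠ 0 := (pow_pos hδ n).ne'
  have h5 : c / δ ^ n * ((δ * a) ^ n * Real.exp (-(δ * a))) = c * (a ^ n * Real.exp (-(δ * a))) := by
    rw [mul_pow]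
    field_simp
  rw [← h5]
  exact h4

theorem TB_omega (h : ℕ) {η : ℝ} (hη : 0 < η) : ∃ C : ℝ, 0 < C ∧ ∀ D : ℕ, 0 < D →
    (h : ℝ) ^ D.primeFactors.card ≤ C * (D : ℝ) ^ η := by
  obtain ⟨N, hN⟩ := exists_nat_gt (1 / η)
  have hN0 : 0 < N := by
    have : (0 : ℝ) < N := (by positivity : (0 : ℝ) < 1 / η).trans hN
    exact_mod_cast this
  have hNr : (0 : ℝ) < N := by exact_mod_cast hN0
  obtain ⟨C, hC, h1⟩ := pow_omega_le (h ^ N)
  refine ⟨C ^ (1 / (N : ℝ)), by positivity, fun D hD => ?_⟩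
  have h2 := h1 D hD
  have hD1 : (1 : ℝ) ≤ D := by exact_mod_cast hD
  have h3 : ((h : ℝ) ^ D.primeFactors.card) = ((((h ^ N : ℕ) : ℝ)) ^ D.primeFactors.card) ^ (1 / (N : ℝ)) := by
    push_cast
    rw [← pow_mul, mul_comm N, pow_mul, one_div]
    exact (Real.pow_rpow_inv_natCast (by positivity) hN0.ne').symm
  rw [h3]
  calc _ ≤ (C * (D : ℝ) ^ (1 / 4 : ℝ)) ^ (1 / (N : ℝ)) := Real.rpow_le_rpow (by positivity) h2 (by positivity)
    _ = C ^ (1 / (N : ℝ)) * (D : ℝ) ^ (1 / 4 * (1 / (N : ℝ))) := by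
        rw [Real.mul_rpow hC.le (by positivity), ← Real.rpow_mul (by positivity)]
    _ ≤ C ^ (1 / (N : ℝ)) * (D : ℝ) ^ η := by
        refine mul_le_mul_of_nonneg_left ?_ (by positivity)
        refine Real.rpow_le_rpow_of_exponent_le hD1 ?_
        have h4 : 1 / (N : ℝ) < η := by
          rw [div_lt_iff₀ hNr]
          rw [div_lt_iff₀ hη] at hN
          linarith
        have h5 : 0 < 1 / (N : ℝ) := by positivity
        linarith

/-- TB -/
theorem TB : TB_stmt := by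
  intro k D₀ W A B h hD ε hε hε1 K K' hh
  obtain ⟨C3, hC3, hequi⟩ := wt_equi1
  obtain ⟨C2, hC2, hpow⟩ := TB_omega (hh * k) (η := ε / 2) (by positivity)
  obtain ⟨L₁, hL₁⟩ := TB_small (K' + K) (ε / 2) (C2 * C3) 1 (by positivity) one_pos
  refine ⟨max 1 L₁, fun a ha R hR hRa X hX => ?_⟩
  have ha1 : 1 ≤ a := (le_max_left _ _).trans ha
  have ha0 : 0 < a := by linarith
  have haL := hL₁ a ((le_max_right _ _).trans ha)
  have hprime : ∀ p : PS W R, (p : ℕ).Prime := fun p => (mem_PS.1 p.2).2.1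
  obtain ⟨c, hc1, hc2, hc3⟩ := hX
  choose ν hν1 hν2 hν3 using fun τ : PS W R → Option (Fin k) => ind_pat (R := R) h τ
  set S : ℝ := mass a with hS
  set Y : ℝ := Real.exp ((1 - ε) * a) with hY
  have hY1 : 1 ≤ Y := Real.one_le_exp (mul_nonneg (by linarith) ha0.le)
  -- expansion of the expectation
  have hEx : Ex (fun p : PS W R => mu0 (p : ℝ)) X =
      ∑ τ, c τ * (1 / (dd (fun p : PS W R => (p : ℕ)) τ : ℝ)) := by
    have h1 : Ex (fun p : PS W R => mu0 (p : ℝ)) X =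
        ∑ τ, c τ * Ex (fun p : PS W R => mu0 (k := k) (((p : ℕ)) : ℝ)) (ind τ) := by
      unfold Ex
      simp only [hc1, mul_sum]
      rw [sum_comm]
      refine sum_congr rfl fun τ _ => sum_congr rfl fun e _ => ?_
      ring
    rw [h1]
    refine sum_congr rfl fun τ _ => ?_
    rw [Ex_mu0_ind (fun p : PS W R => (p : ℕ)) τ]
  -- expansion of the sum
  have hsum : ∑ n ∈ Ioc 0 (NN 1 a), wt 1 a n * X (pat A B (PS W R) n) =
      ∑ τ, c τ * ∑ n ∈ Ioc 0 (NN 1 a) with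
        n ≡ ν τ [MOD dd (fun p : PS W R => (p : ℕ)) τ], wt 1 a n := by
    simp only [hc1, mul_sum]
    rw [sum_comm]
    refine sum_congr rfl fun τ _ => ?_
    rw [sum_filter]
    refine sum_congr rfl fun n _ => ?_
    rw [hν2 τ n]
    split_ifs
    · ring
    · ring
  -- the error of one label
  have hone : ∀ τ : PS W R → Option (Fin k), |c τ * ∑ n ∈ Ioc 0 (NN 1 a) with
        n ≡ ν τ [MOD dd (fun p : PS W R => (p : ℕ)) τ], wt 1 a n -
      S * (c τ * (1 / (dd (fun p : PS W R => (p : ℕ)) τ : ℝ)))| ≤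
        |c τ| * (C3 * Real.exp (-a)) := by
    intro τ
    have hd : 0 < dd (fun p : PS W R => (p : ℕ)) τ := (Nat.zero_le _).trans_lt (hν1 τ)
    have h1 := hequi a ha1 _ (ν τ) hd
    rw [← hS] at h1
    set Z := ∑ n ∈ Ioc 0 (NN 1 a) with
        n ≡ ν τ [MOD dd (fun p : PS W R => (p : ℕ)) τ], wt 1 a n
    have h2 : c τ * Z - S * (c τ * (1 / (dd (fun p : PS W R => (p : ℕ)) τ : ℝ))) =
        c τ * (Z - S / (dd (fun p : PS W R => (p : ℕ)) τ : ℝ)) := by ring
    rw [h2, abs_mul]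
    exact mul_le_mul_of_nonneg_left h1 (abs_nonneg _)
  -- the sum of the coefficients
  have hcsum : ∑ τ, |c τ| ≤ a ^ K' * (C2 * Real.exp ((1 - ε / 2) * a)) := by
    have h1 : ∑ τ, |c τ| = ∑ τ : PS W R → Option (Fin k) with
        (dd (fun p : PS W R => (p : ℕ)) τ : ℝ) ≤ Y, |c τ| := by
      symm
      apply sum_filter_of_ne
      intro τ _ hτ
      have hτ' : c τ ≠ 0 := fun h0 => hτ (by rw [h0, abs_zero])
      exact (hc3 τ hτ').1
    have h2 := sum_labels' k W R Y (fun _ => 1) (fun _ => zero_le_one) hh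
    simp only [mul_one] at h2
    have h3 : ∑ D ∈ Icc 1 ⌊Y⌋₊ with Squarefree D ∧ Nat.Coprime D W,
        ((hh * k : ℕ) : ℝ) ^ D.primeFactors.card ≤ C2 * Real.exp ((1 - ε / 2) * a) := by
      have hfl : ((⌊Y⌋₊ : ℕ) : ℝ) ≤ Y := Nat.floor_le (Real.exp_pos _).le
      calc ∑ D ∈ Icc 1 ⌊Y⌋₊ with Squarefree D ∧ Nat.Coprime D W,
            ((hh * k : ℕ) : ℝ) ^ D.primeFactors.card
          ≤ ∑ D ∈ Icc 1 ⌊Y⌋₊, ((hh * k : ℕ) : ℝ) ^ D.primeFactors.card :=
            sum_le_sum_of_subset_of_nonneg (filter_subset _ _) fun _ _ _ => by positivity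
        _ ≤ ∑ _D ∈ Icc 1 ⌊Y⌋₊, C2 * Y ^ (ε / 2) := by
            refine sum_le_sum fun D hD' => ?_
            rw [mem_Icc] at hD'
            refine (hpow D (by omega)).trans (mul_le_mul_of_nonneg_left ?_ hC2.le)
            refine Real.rpow_le_rpow (Nat.cast_nonneg _) (le_trans ?_ hfl) (by positivity)
            exact_mod_cast hD'.2
        _ = ((⌊Y⌋₊ : ℕ) : ℝ) * (C2 * Y ^ (ε / 2)) := by
            rw [sum_const, Nat.card_Icc, nsmul_eq_mul, Nat.add_sub_cancel]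
        _ ≤ Y * (C2 * Y ^ (ε / 2)) :=
            mul_le_mul_of_nonneg_right hfl (by positivity)
        _ = C2 * (Y * Y ^ (ε / 2)) := by ring
        _ ≤ C2 * Real.exp ((1 - ε / 2) * a) := by
            refine mul_le_mul_of_nonneg_left ?_ hC2.le
            rw [hY, ← Real.exp_mul, ← Real.exp_add]
            refine Real.exp_le_exp.2 ?_
            have : 0 ≤ ε * ε * a := by positivity
            nlinarith
    rw [h1]
    calc ∑ τ : PS W R → Option (Fin k) with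
          (dd (fun p : PS W R => (p : ℕ)) τ : ℝ) ≤ Y, |c τ|
        ≤ ∑ τ : PS W R → Option (Fin k) with
          (dd (fun p : PS W R => (p : ℕ)) τ : ℝ) ≤ Y,
            a ^ K' * (hh : ℝ) ^ (#{p | τ p ≠ none}) := sum_le_sum fun τ _ => hc2 τ
      _ = a ^ K' * ∑ τ : PS W R → Option (Fin k) with
          (dd (fun p : PS W R => (p : ℕ)) τ : ℝ) ≤ Y,
            (hh : ℝ) ^ (#{p | τ p ≠ none}) := by rw [mul_sum]
      _ ≤ a ^ K' * (C2 * Real.exp ((1 - ε / 2) * a)) :=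
        mul_le_mul_of_nonneg_left (h2.trans h3) (by positivity)
  rw [hsum, hEx, mul_sum, ← sum_sub_distrib]
  calc |∑ τ, (c τ * ∑ n ∈ Ioc 0 (NN 1 a) with
        n ≡ ν τ [MOD dd (fun p : PS W R => (p : ℕ)) τ], wt 1 a n -
          S * (c τ * (1 / (dd (fun p : PS W R => (p : ℕ)) τ : ℝ))))|
      ≤ ∑ τ, |c τ| * (C3 * Real.exp (-a)) :=
        (abs_sum_le_sum_abs _ _).trans (sum_le_sum fun τ _ => hone τ)
    _ = (∑ τ, |c τ|) * (C3 * Real.exp (-a)) := by rw [← sum_mul]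
    _ ≤ (a ^ K' * (C2 * Real.exp ((1 - ε / 2) * a))) * (C3 * Real.exp (-a)) := 
        mul_le_mul_of_nonneg_right hcsum (by positivity)
    _ = C2 * C3 * (a ^ (K' + K) * (Real.exp ((1 - ε / 2) * a) * Real.exp (-a))) * (1 / a ^ K) := by
        rw [pow_add]
        field_simp
    _ = C2 * C3 * (a ^ (K' + K) * Real.exp (-(ε / 2 * a))) * (1 / a ^ K) := by
        rw [← Real.exp_add]
        congr 4
        ring
    _ ≤ 1 * (1 / a ^ K) := mul_le_mul_of_nonneg_right haL (by positivity)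
    _ = 1 / a ^ K := one_mul _

end Pool.Agent.MK
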