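import Pool.Agent.helper8.MK.PM
import Pool.Agent.helper67.MK.BH
import Pool.Agent.helper3.MK.CE
import Pool.Agent.helper22.MK.IN
import Pool.Agent.helper17.MK.EM
import Pool.Agent.helper37.MK.MD
import Pool.Agent.helper29.MK.TA
import Pool.Agent.helper17.MK.TB
import Pool.Agent.helper17.MK.FA
import Pool.Agent.helper99.MK.FB
import Pool.Agent.helper58.MK.RL
import Pool.Agent.helper24.MK.KI
import Pool.Agent.helper17.MK.NU
import Pool.Agent.helper10.MK.MP
import Pool.Agent.helper11.MK.FX
import Pool.Agent.helper66.MK.SX
import Pool.Agent.helper99.MK.EV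
import Pool.Agent.helper21.MK.RB
import Pool.Agent.helper11.MK.TP
import Pool.Agent.helper21.MK.SD
import Pool.Agent.helper17.MK.RZ
import Pool.Agent.helper21.MK.PD
import Pool.Agent.helper64.MK.QB
import Pool.Agent.helper21.MK.PN
import Pool.Agent.helper90.MK.MW
import Pool.Agent.helper50.MK.WV
import Pool.Agent.helper61.MK.CR
import Pool.Agent.helper46.MK.RU
import Pool.Agent.helper85.MK.AV
import Pool.Agent.helper87.MK.MM
import Pool.Agent.helper34.MK.SV
import Pool.Agent.helper14.MK.XE
import Pool.Agent.helper83.MK.MA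
import Pool.Agent.helper35.MK.MB
import Pool.Agent.helper6.MK.PA
import Pool.Agent.helper17.MK.PT
import Pool.Agent.helper9.MK.PW
import Pool.Agent.helper77.MK.PC
import Pool.Agent.helper16.MK.PB
import Pool.Agent.helper31.MK.ST
import Pool.Agent.helper2.MK.FM

/-!
# Four clusters: assembly

The closed theorems of the rows of `Pool/Agent/helper17/MK/Spec.lean`.
-/

set_option autoImplicit false

namespace Pool.Agent.MK

theorem PM_all : PM_stmt := PM

theorem BH_all : BH_stmt := BH

theorem CE_all : CE_stmt := CE

theorem IN_all : IN_stmt := IN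

theorem EM_all : EM_stmt := EM

theorem MD_all : MD_stmt := MD

theorem TA_all : TA_stmt := TA

theorem TB_all : TB_stmt := TB

theorem FA_all : FA_stmt := FA

theorem FB_all : FB_stmt := FB

theorem RL_all : RL_stmt := RL

theorem KI_all : KI_stmt := KI

theorem NU_all : NU_stmt := NU

theorem MP_all : MP_stmt := MP

theorem FX_all : FX_stmt := FX

theorem SX_all : SX_stmt := SX

theorem EV_all : EV_stmt := EV

theorem RB_all : RB_stmt := RB

theorem TP_all : TP_stmt := TP

theorem SD_all : SD_stmt := SD

theorem RZ_all : RZ_stmt := RZ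

theorem PD_all : PD_stmt := PD

theorem QB_all : QB_stmt := QB

theorem PN_all : PN_stmt := PN

theorem MW_all : MW_stmt := MW

theorem WV_all : WV_stmt := WV

theorem CR_all : CR_stmt := CR

theorem RU_all : RU_stmt := RU RB_all PM_all KI_all

theorem AV_all : AV_stmt := AV RL_all RU_all

theorem MM_all : MM_stmt := MM PM_all MP_all NU_all

theorem SV_all : SV_stmt := SV AV_all MM_all

theorem XE_all : XE_stmt := XE EM_all FX_all SX_all

theorem MA_all : MA_stmt := MA EV_all IN_all CE_all RZ_all FA_all PD_all QB_all XE_all SD_all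

theorem MB_all : MB_stmt := MB EV_all IN_all CE_all RZ_all FB_all PD_all QB_all XE_all

theorem PA_all : PA_stmt := PA TA_all MA_all XE_all PD_all

theorem PT_all : PT_stmt := PT TB_all MB_all XE_all PD_all

theorem PW_all : PW_stmt := PW MP_all TP_all

theorem PC_all : PC_stmt := PC PW_all

theorem PB_all : PB_stmt := PB PM_all MP_all MW_all SV_all BH_all TP_all WV_all QB_all PA_all PT_all PC_all PN_all

theorem ST_all : ST_stmt := ST PB_all MD_all CR_all

theorem FM_all : FM_stmt := FM ST_all

end Pool.Agent.MK
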