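import Pool.Agent.helper85.FC.F1
import Pool.Agent.helper31.RLS.All

/-!
# Four clusters: definitions

A pair of forms in Maynard's sieve can be bounded with Rosser's sieve instead of Selberg's, and a little is gained
by switching (an idea of Merikoski): the constant `4` in the bound for pairs becomes `4 - 1/4000`, so that four
clusters of linear forms suffice where five were needed in `Pool.Agent.helper85.FC`.
-/

set_option autoImplicit false

namespace Pool.Agent.MK

open Finset Real Pool.Agent.helper39.MT Pool.Agent.helper85.FC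

/-! ### sieve weights: functions `l` on finite sets of primes -/

/-- the sieve function `∑_{K ⊆ T} l(K)` of the set `T` of primes dividing a number -/
noncomputable def Sg (l : Finset ℕ → ℝ) (T : Finset ℕ) : ℝ := ∑ K ∈ T.powerset, l K

/-- the main term `∑_{K ⊆ P} l(K) g(K)` -/
noncomputable def Mn (l : Finset ℕ → ℝ) (g : ℕ → ℝ) (P : Finset ℕ) : ℝ :=
  ∑ K ∈ P.powerset, l K * ∏ p ∈ K, g p

/-- `1 / p` -/
noncomputable def gi (p : ℕ) : ℝ := 1 / (p : ℝ)

/-- `∏_{p ≤ w} (1 - 1/p)` -/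
noncomputable def Vw (w : ℝ) : ℝ := ∏ p ∈ RLS.PP 1 w, (1 - 1 / (p : ℝ))

/-- The sum of `1/m` over the squarefree `m ≤ exp L` with all prime factors `> w`. -/
noncomputable def RR (w L : ℝ) : ℝ :=
  ∑ K ∈ (RLS.PP w (Real.exp L)).powerset.filter (fun K : Finset ℕ => ∑ p ∈ K, Real.log (p : ℝ) ≤ L),
    ∏ p ∈ K, 1 / (p : ℝ)

/-- The weights: Rosser's upper weights of level `exp L` on the primes `≤ z`, minus one half times, for every prime
`p > z`, his lower weights of level `exp L / p`. -/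
noncomputable def lM (L z : ℝ) (K : Finset ℕ) : ℝ :=
  (if ∀ p ∈ K, (p : ℝ) ≤ z then RLS.lam true L K else 0) -
    1 / 2 * ∑ p ∈ K, if z < (p : ℝ) ∧ ∀ q ∈ K.erase p, (q : ℝ) ≤ z then
      RLS.lam false (L - Real.log (p : ℝ)) (K.erase p) else 0

/-- the indicator of three elements; `Sg c3 T` is the number of triples in `T` -/
noncomputable def c3 (K : Finset ℕ) : ℝ := if K.card = 3 then 1 else 0

/-- Weights of Brun's type with level `w ^ b`: an upper bound sieve for the primes `≤ w`, of the expected size up to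
a factor `1 + ep`, also for every subset of the primes. -/
structure BHW (ep : ℝ) (b : ℕ) (w : ℝ) (l : Finset ℕ → ℝ) : Prop where
  one : l ∅ = 1
  le1 : ∀ K, |l K| ≤ 1
  lev : ∀ K, l K ≠ 0 → K ⊆ RLS.PP 1 w ∧ ∏ p ∈ K, (p : ℝ) ≤ w ^ b
  pos : ∀ T ⊆ RLS.PP 1 w, 0 ≤ Sg l T
  upp : ∀ P ⊆ RLS.PP 1 w, ∀ g : ℕ → ℝ, (∀ p ∈ P, 0 ≤ g p ∧ g p ≤ 1 / 2 ∧ g p ≤ 4 / (p : ℝ)) →
    Mn l g P ≤ (1 + ep) * ∏ p ∈ P, (1 - g p)

/-! ### functions of labellings -/

section
variable {ι : Type} [Fintype ι] [DecidableEq ι] {k : ℕ}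

/-- the set of primes with label `m` -/
def TS (pr : ι → ℕ) (m : Fin k) (e : ι → Option (Fin k)) : Finset ℕ := (cls e m).image pr

/-- the sieve function of the primes in `P` with label `m` or `m'` (possibly `m = m'`) -/
noncomputable def SU (pr : ι → ℕ) (l : Finset ℕ → ℝ) (P : Finset ℕ) (m m' : Fin k)
    (e : ι → Option (Fin k)) : ℝ := Sg l ((TS pr m e ∪ TS pr m' e) ∩ P)

/-- `X` is a combination of the `ind τ` with coefficients `≤ M h ^ card (supp τ)`, of level `Y`; only the labels `i` at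
places `p` with `A p i` occur. -/
def Expn (pr : ι → ℕ) (A : ι → Fin k → Prop) (M : ℝ) (h : ℕ) (Y : ℝ)
    (X : (ι → Option (Fin k)) → ℝ) : Prop :=
  ∃ c : (ι → Option (Fin k)) → ℝ, (∀ e, X e = ∑ τ : ι → Option (Fin k), c τ * ind τ e) ∧
    (∀ τ, |c τ| ≤ M * (h : ℝ) ^ (supp τ).card) ∧
    ∀ τ, c τ ≠ 0 → (dd pr τ : ℝ) ≤ Y ∧ ∀ p i, τ p = some i → A p i

/-- The hypotheses of `Expn` can be weakened. -/
theorem Expn.mono {pr : ι → ℕ} {A A' : ι → Fin k → Prop} {M M' : ℝ} {h h' : ℕ} {Y Y' : ℝ}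
    {X : (ι → Option (Fin k)) → ℝ} (H : Expn pr A M h Y X) (hA : ∀ p i, A p i → A' p i)
    (hM : M ≤ M') (hM0 : 0 ≤ M') (hh : h ≤ h') (hY : Y ≤ Y') : Expn pr A' M' h' Y' X := by
  obtain ⟨c, h1, h2, h3⟩ := H
  refine ⟨c, h1, fun τ => (h2 τ).trans ?_, fun τ hτ => ⟨(h3 τ hτ).1.trans hY, fun p i hp =>
    hA p i ((h3 τ hτ).2 p i hp)⟩⟩
  have h4 : (h : ℝ) ^ (supp τ).card ≤ (h' : ℝ) ^ (supp τ).card :=
    pow_le_pow_left₀ (Nat.cast_nonneg h) (by exact_mod_cast hh) _
  calc M * (h : ℝ) ^ (supp τ).card ≤ M' * (h : ℝ) ^ (supp τ).card :=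
        mul_le_mul_of_nonneg_right hM (by positivity)
    _ ≤ M' * (h' : ℝ) ^ (supp τ).card := mul_le_mul_of_nonneg_left h4 hM0

/-- Remove the labels `m` and `m'`. -/
def rem2 (m m' : Fin k) (e : ι → Option (Fin k)) : ι → Option (Fin k) :=
  fun p => if e p = some m ∨ e p = some m' then none else e p

/-- The measure where the labels `m`, `m'` are forbidden at the places in `S` and forgotten at the others. -/
noncomputable def kap (μ : ι → Option (Fin k) → ℝ) (S : Finset ι) (m m' : Fin k) (p : ι) :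
    Option (Fin k) → ℝ
  | none => μ p none + if p ∈ S then 0 else μ p (some m) + μ p (some m')
  | some i => if i = m ∨ i = m' then 0 else μ p (some i)

/-- The diagonal quadratic form. -/
noncomputable def QF (pr : ι → ℕ) (z : (ι → Option (Fin k)) → ℝ) : ℝ :=
  (∏ p, (1 + 8 * (1 / ((pr p : ℝ) - 1)) ^ 2)) * ∑ σ : ι → Option (Fin k),
    (∏ p, (if σ p = none then 1 else
      1 / ((pr p : ℝ) - 1) * (1 + 4 * (1 / ((pr p : ℝ) - 1))))) * z σ ^ 2

/-- The main function: `FF ^ 2`, Brun's sieve for small primes, and the weights `l` for the form `m'`. -/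
noncomputable def XA (pr : ι → ℕ) (ζ : (ι → Option (Fin k)) → ℝ) (l₀ l : Finset ℕ → ℝ) (w : ℝ)
    (P : Finset ℕ) (m m' : Fin k) (e : ι → Option (Fin k)) : ℝ :=
  FF pr ζ e ^ 2 * SU pr l₀ (RLS.PP 1 w) m m' e * SU pr l P m' m' e

/-- The function for the triples of primes in `P'`: sieves for both forms. -/
noncomputable def XB (pr : ι → ℕ) (ζ : (ι → Option (Fin k)) → ℝ) (l₀ l : Finset ℕ → ℝ) (w : ℝ)
    (P P' : Finset ℕ) (m m' : Fin k) (e : ι → Option (Fin k)) : ℝ :=
  FF pr ζ e ^ 2 * SU pr l₀ (RLS.PP 1 w) m m' e *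
    (SU pr l P m m e * SU pr l P m' m' e * SU pr c3 P' m' m' e)

end

/-- the places: primes `≤ R` not dividing `W` -/
abbrev prP (W R : ℕ) : PS W R → ℕ := fun p => (p : ℕ)

/-- the cluster of an index -/
def cl4 {kc : ℕ} (i : Fin (4 * kc)) : Fin 4 := (finProdFinEquiv.symm i).1

end Pool.Agent.MK
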