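import Pool.Agent.helper17.MK.Defs

/-!
# Four clusters of linear forms: rows

GOAL (`FM_stmt`): `Pool.Agent.helper85.FC.cluster_main` with FOUR clusters instead of five.

IDEA.  In `helper85/FC` the pair sums `∑ wt FF² lam(L_m) lam(L_m')` are at most `(4 + ε)` times the expected size
(Selberg's sieve for `L_m'`, level `1/2`), and five clusters are needed since `5/4 > 1`. With ANY constant `< 4` four
clusters suffice. Replace Selberg's sieve by Rosser's linear sieve (`helper31/RLS`), of level `D = exp L`, `L ≈ a/2`, for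
the primes in `(w, z]`, `z = exp (25/76 L)`, and subtract one half of the integers with exactly one prime factor in
`(z, y]`, `y = exp (13/38 L)`, `y z² = D` (lower sieve of level `D/p`):
  `1[L_m' prime] ≤ Λ₀ (Λ⁺_D - 1/2 ∑_(z < p ≤ y, p | L_m') Λ⁻_(D/p)) + 1/2 (number of triples z < p₁ < p₂ < p₃ ≤ y)`;
the triples are bounded by dropping the primality of `L_m` (level `1` instead of `1/2`). `Λ₀` is Brun's sieve for the primes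
`≤ w = exp (δ a)`. Result: `4 (1 - 1/6000) + 1/2 (152 * 2 / 37) ² log³(26/25) / 6 < 4 - 3/10000`.

RULES.  Row `XX`: file `Pool/Agent/<seat>/MK/XX.lean`, `import Pool.Agent.helper17.MK.Spec`,
`namespace Pool.Agent.MK`, `theorem XX (h1 : YY_stmt) ... : XX_stmt` (only the statements named after `From`, in this
order), auxiliary lemmas prefixed `XX_`. The theorems `RLS.GEN_all`, `RLS.PS_all`, ... and everything in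
`Pool.Agent.helper85.FC` (and the files it imports) can be used directly. No `convert`, no `congr!`, no straight double
quotes.
-/

set_option autoImplicit false

namespace Pool.Agent.MK

open Finset Real Pool.Agent.helper39.MT Pool.Agent.helper85.FC

/-! ## Part A: the sieve for one form -/

/-- **RL** (short, medium). (1) For a finite set `Q` of primes and `N`:
`∏_(p ∈ Q) (1 - 1/p) ∑_(n ≤ N) 1/n ≤ ∑_(n ≤ N, no p ∈ Q divides n) 1/n`, by induction on `Q`: for `p ∉ Q` and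
`S = {n | no q ∈ Q divides n}`, `∑_(n ≤ N, n ∈ S) 1/n = ∑_(n ∈ S, p ∤ n) 1/n + (1/p) ∑_(n' ≤ N/p, n' ∈ S) 1/n'`, and the last sum is
at most the left-hand side. (2) every `n` with all prime factors `> w` is `t d²`, `t` squarefree, so the sum over these
`n ≤ N` is at most `(∑_t 1/t) (1 + ∑_(w < d ≤ N) 1/d²) ≤ RR w L (1 + 1/⌊w⌋)`, with `K = primeFactors t`; `⌊w⌋ ≥ w/2`.
(3) `N = ⌊exp L⌋`, `∑_(n ≤ N) 1/n ≥ log (N + 1) ≥ L`. -/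
def RL_stmt : Prop := ∀ w L : ℝ, 2 ≤ w → 0 ≤ L → Vw w * L ≤ (1 + 2 / w) * RR w L

/-- **RB** (Buchstab's identity; short). `K = ∅` gives `1`. A nonempty `K` has a least element `p`; `K = insert p K'`, and
`K' ⊆ PP p (exp (L - log p))` with `∑_(K') log ≤ L - log p`. -/
def RB_stmt : Prop := ∀ w L : ℝ, 1 ≤ w → 0 ≤ L →
  RR w L = 1 + ∑ p ∈ RLS.PP w (Real.exp L), 1 / (p : ℝ) * RR p (L - Real.log (p : ℝ))

/-- **PM** (partial summation; medium, short). `RLS.PS_all` with `c p = 1/p`, `a = 0`, `b = log (log x / log w)`, `ka = 1`,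
`et = C / log w` and: upper bound: `x p = log (log p / log w)`, antitone case for `σ ↦ ψ (exp σ log w)`; lower bound:
`x p = log (log x / log p)`, monotone case for `σ ↦ ψ (exp (-σ) log x)`, and the substitution `σ ↦ b - σ` in the integral. The
hypotheses follow from `|∑_(w' < p ≤ x') 1/p - log (log x' / log w')| ≤ C / log w'` for `2 ≤ w' ≤ x'` (Mertens; lower bound:
`Pool.Agent.helper22.PD.mertens_second` in Pool/Agent/helper22/PD/Mertens2.lean, upper bound: CH/MER.lean, see the proof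
of `Pool.Agent.RLS.ME` in Pool/Agent/helper32/RLS/ME.lean; one prime more or less changes the sum by `≤ 1/w`). -/
def PM_stmt : Prop := ∃ C : ℝ, 0 < C ∧ ∀ w x : ℝ, 2 ≤ w → w ≤ x → ∀ ψ : ℝ → ℝ,
  (∀ t ∈ Set.Icc (Real.log w) (Real.log x), 0 ≤ ψ t) →
  AntitoneOn ψ (Set.Icc (Real.log w) (Real.log x)) →
  (∫ σ in (0 : ℝ)..Real.log (Real.log x / Real.log w), ψ (Real.exp σ * Real.log w)) -
      C / Real.log w * ψ (Real.log w) ≤ ∑ p ∈ RLS.PP w x, 1 / (p : ℝ) * ψ (Real.log (p : ℝ)) ∧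
  ∑ p ∈ RLS.PP w x, 1 / (p : ℝ) * ψ (Real.log (p : ℝ)) ≤
    (∫ σ in (0 : ℝ)..Real.log (Real.log x / Real.log w), ψ (Real.exp σ * Real.log w)) +
      C / Real.log w * ψ (Real.log w)

/-- **KI** (short, medium). `K v = G (v + 1) + H (v + 1)`. For `s = v + 1 ≥ 2`: adding `gi` (for `s ≤ 3`: `G = 1` and
`∫ H(t-1)/(t-1) = 0`) and `hi`: `G s + H s = 1 + ∫_2^s (G + H)(t-1)/(t-1) = 1 + ∫_1^v (G + H)(r)/r dr`; substitute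
`r = v exp (-σ)`. Monotone: constant `1` for `s ≤ 2`, and the integrand is `≥ 0` (`g1`, `h0`). -/
def KI_stmt : Prop := ∀ (u : ℝ) (G H : ℝ → ℝ), 4 ≤ u → RLS.DDE u G H →
  (∀ v, v ≤ 1 → G (v + 1) + H (v + 1) = 1) ∧
  (∀ v, 1 ≤ v → v + 1 ≤ u → (∫ σ in (0 : ℝ)..Real.log v, (G (v * Real.exp (-σ)) + H (v * Real.exp (-σ)))) =
    G (v + 1) + H (v + 1) - 1) ∧
  MonotoneOn (fun s => G s + H s) (Set.Iic u)

/-- **RU** (medium). From RB, PM, KI. By induction on `n`: for all `ε` there is `w₀` such that the inequality holds if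
`L ≤ n log w` (and `L ≤ (u - 1) log w`). `n = 1`: `PP w (exp L) = ∅`, `RR w L = 1`. Step: for `L > log w` use RB; for
`p ∈ PP w (exp L)`: `L - log p ≤ n log p`, `≤ (u - 1) log p`, so `RR p (L - log p) ≤ (G + H)(L / log p) + ε'`. PM with
`x = exp L`, `ψ t = (G + H)(L / t) + ε'` (antitone by KI, `L / t ≤ u - 1`): with `v = L / log w ≤ u - 1` the sum is at most
`∫_0^(log v) (G + H)(v exp (-σ)) dσ + ε' log v + (C / log w) ((G + H)(u) + ε')`, and KI. -/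
def RU_stmt : Prop := ∀ (u : ℝ) (G H : ℝ → ℝ), 4 ≤ u → RLS.DDE u G H → ∀ eps : ℝ, 0 < eps →
  ∃ w₀ : ℝ, 2 ≤ w₀ ∧ ∀ w L : ℝ, w₀ ≤ w → 0 ≤ L → L ≤ (u - 1) * Real.log w →
    RR w L ≤ G (L / Real.log w + 1) + H (L / Real.log w + 1) + eps

/-- **AV** (the constant; short, medium). From RL, RU. Take `G`, `H` from `RLS.DX_all` and `A = u / G u`, `F s = A G s / s`,
`f s = A H s / s`: `Dat` as in the proof of `Pool.Agent.RLS.DP` (Pool/Agent/helper30/RLS/DP.lean; `A ≤ 4`, so `G u ≥ u / 4`).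
RL and RU with `L = (u - 1) log w`: `Vw w (u - 1) log w ≤ (1 + 2/w) (G u + H u + ε')`, and `H u < G u` (`RLS.DQ_all`). Multiply
by `A / (u - 1)`, `A G u = u`. -/
def AV_stmt : Prop := ∀ u : ℝ, 4 ≤ u → ∃ (A : ℝ) (F f : ℝ → ℝ), RLS.Dat u A F f ∧
  ∀ eps : ℝ, 0 < eps → ∃ w₀ : ℝ, 2 ≤ w₀ ∧ ∀ w : ℝ, w₀ ≤ w →
    A * (Vw w * Real.log w) ≤ 2 * u / (u - 1) + eps

/-- **MP** (the weights `lM`; medium, short). `RLS.LA_all`, `RLS.SI_all`. `|lM| ≤ 1`: if all elements are `≤ z` the sum is `0`;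
otherwise the first term is `0` and at most one `p ∈ K` satisfies the condition. The identity: the `K ⊆ P` with all
elements `≤ z` are the subsets of `P₀ = P.filter (≤ z)`; the pairs `(K, p)`, `p ∈ K`, `p > z`, `K.erase p ⊆ P₀`, correspond to
`(p, K')` with `K = insert p K'`. With `g = 1` this is `Sg`. The last claim, `T₀ = T.filter (≤ z)`: if `T₀ ≠ ∅`, `RLS.SI_all`:
`Sg (lam true L) T₀ ≥ 0` and `Sg (lam false ..) T₀ ≤ 0`; if `T₀ = ∅`, `Sg (lM L z) T = 1 - n/2`, `n = card T`, and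
`1 - n/2 + choose n 3 / 2 ≥ 0` for every natural number `n`. -/
def MP_stmt : Prop := ∀ L z : ℝ, (∀ K, |lM L z K| ≤ 1) ∧ lM L z ∅ = 1 ∧
  (∀ (g : ℕ → ℝ) (P : Finset ℕ), Mn (lM L z) g P =
    Mn (RLS.lam true L) g (P.filter fun p : ℕ => (p : ℝ) ≤ z) -
      1 / 2 * ∑ p ∈ P.filter (fun p : ℕ => z < (p : ℝ)),
        g p * Mn (RLS.lam false (L - Real.log (p : ℝ))) g (P.filter fun p : ℕ => (p : ℝ) ≤ z)) ∧
  ∀ T : Finset ℕ, 0 ≤ Sg (lM L z) T +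
    if T.filter (fun p : ℕ => (p : ℝ) ≤ z) = ∅ then (T.card.choose 3 : ℝ) / 2 else 0

/-- **MW** (the levels; short). `RLS.CT_all` with `be = 0`: `K₁ ⊆ K` with `∑_(K₁) log ≤ al`, and `∑_(K \ K₁) log p ≤ 0` forces
`K \ K₁ = ∅`. Second claim, a set `K = insert p K'` with `z < p ≤ y`, `K' ⊆ PP w z`: for `q ∈ K'`,
`2 log q ≤ 2 log z ≤ L - log p`, so `∑_(K') log ≤ L - log p`. -/
def MW_stmt : Prop :=
  (∀ (L w z : ℝ) (K : Finset ℕ), 0 ≤ L → K ⊆ RLS.PP w z → RLS.lam true L K ≠ 0 →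
    ∏ p ∈ K, (p : ℝ) ≤ Real.exp L) ∧
  ∀ (L w z y : ℝ) (K : Finset ℕ), 0 ≤ L → 1 ≤ z → 2 * Real.log z + Real.log y ≤ L → K ⊆ RLS.PP w y →
    lM L z K ≠ 0 → ∏ p ∈ K, (p : ℝ) ≤ Real.exp L

/-- **NU** (numbers; medium). (1) `Fi` with `a = 3`, `b = 76/25`: `f(t - 1) = A log(t - 2)/(t - 1) ≤ A (t - 3)/2` on `[3, 76/25]`.
(2) `t = 76/25 - exp σ ∈ [2, 51/25]` and with `v = t - 2 = 26/25 - exp σ`: `f t = A log(1 + v)/t ≥ A (25/51) (v - v²/2)`; the integral of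
`v - v²/2` over `[0, b]`, `b = log (26/25)`, is `(26/25) b - 1/25 - ((26/25)² b - 52/625 + 51/1250)/2 = 0.4992 b - 0.0188`, and
`b ≥ x - x²/2 + x³/3 - x⁴/4 ≥ 0.03922`, `x = 1/25`. -/
def NU_stmt : Prop := ∀ (u A : ℝ) (F f : ℝ → ℝ), 4 ≤ u → RLS.Dat u A F f →
  76 / 25 * F (76 / 25) ≤ A * (1 + 1 / 2500) ∧
  A * (38 / 100000) ≤ ∫ σ in (0 : ℝ)..Real.log (26 / 25), f (76 / 25 - Real.exp σ)

/-- **MM** (the main term of `lM`; medium). From PM, MP, NU. `z = exp (25/76 L)`, `y = exp (13/38 L)`, `z < y`, `log z = L/s`,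
`s = 76/25`, `log y / log z = 26/25`. MP with `g = gi`, `P = PP w y`: `P₀ = PP w z`, `P₁ = PP z y`. `RLS.GEN_all` with `D = exp L`:
`SS true ≤ (log w / log z) (F s + ε')`, and with `D = exp (L - log p) ≥ z²` for `p ∈ PP z y`:
`SS false ≥ (log w / log z) (f ((L - log p) / log z) - ε')`. PM (for `z`, `y`, `ψ t = f ((L - t)/log z)`, antitone, between `0` and `1`):
`∑ (1/p) f(..) ≥ ∫_0^(log (26/25)) f (s - exp σ) dσ - C / log z`, and `∑ 1/p ≤ log (26/25) + C / log z ≤ 1`. NU: in total at most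
`s (log w / L) (F s - (1/2) A 0.00038 + 2 ε') ≤ (log w / L) A (1.0004 - 0.0005776 + 7 ε')`, and `log z ≥ log w → ∞`. -/
def MM_stmt : Prop := ∀ (u A : ℝ) (F f : ℝ → ℝ), 4 ≤ u → RLS.Dat u A F f → ∀ eps : ℝ, 0 < eps →
  ∃ w₀ : ℝ, 2 ≤ w₀ ∧ ∀ w L : ℝ, w₀ ≤ w → 4 * Real.log w ≤ L → L ≤ u * Real.log w →
    Mn (lM L (Real.exp (25 / 76 * L))) gi (RLS.PP w (Real.exp (13 / 38 * L))) ≤
      A * (Real.log w / L) * (1 - 1 / 6000 + eps)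

/-- **SV** (short, medium). From AV, MM. `A`, `F`, `f` from AV for `u`; `A log w Vw w ≤ 2 (1 + ε')` for `u ≥ u₀`, `w ≥ w₀`, since
`u / (u - 1) → 1`. First claim: MM. Second: `RLS.GEN_all` with `z = exp (L/3)`, `F 3 = A / 3`:
`≤ (3 log w / L) (A/3 + ε'') = A (log w / L) (1 + 3 ε''/A)`, `A ≥ 3`. -/
def SV_stmt : Prop := ∀ eps : ℝ, 0 < eps → ∃ u₀ : ℝ, 4 ≤ u₀ ∧ ∀ u : ℝ, u₀ ≤ u → ∃ w₀ : ℝ, 2 ≤ w₀ ∧
  ∀ w L : ℝ, w₀ ≤ w → L = u * Real.log w →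
    Vw w * Mn (lM L (Real.exp (25 / 76 * L))) gi (RLS.PP w (Real.exp (13 / 38 * L))) ≤
      2 / L * (1 - 1 / 6000 + eps) ∧
    Vw w * Mn (RLS.lam true L) gi (RLS.PP w (Real.exp (L / 3))) ≤ 2 / L * (1 + eps)

/-- **BH** (Brun's sieve; medium, long). `S₀ = 4 sup_(w ≥ 1) ∑_(√w < p ≤ w) 1/p < ∞` (Mertens, see PM),
`x_c = exp (2 S₀) S₀ ^ (2c+1) / (2c+1)!`. Claim, by induction on `n`: for all `w` in `[1, 2 ^ (2 ^ n))` and all `c ≥ c₀` there is `l` with all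
the properties, level `w ^ (4c+4)` and the constant `exp (κ 4⁻ᶜ)`, where `x_c ≤ (3/4) κ 4⁻ᶜ` for `c ≥ c₀`. `n = 0`: `PP 1 w = ∅`,
`l = 1` at `∅`, `0` otherwise. Step: `l'` for `√w` and `c + 1`, `B = PP (√w) w`, `l K = l' (K \ B) (-1) ^ card (K ∩ B)` if
`card (K ∩ B) ≤ 2c` and `K ⊆ PP 1 w`, `0` otherwise; `Sg l T = Sg l' (T \ B) ∑_(K ⊆ T ∩ B, card K ≤ 2c) (-1) ^ card K` and the
last sum is `≥ 0` (Bonferroni: `Pool.Agent.Lib.BrunHooley.bonferroni`, `ts_eq_sum_powerset`). Same for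
`Mn`: the factor of `B` is `≤ ∏_(p ∈ P ∩ B) (1 - g p) + e_(2c+1)(g)`, `e_n ≤ (∑ g)ⁿ / n!` (`es_le_pow_div`), and
`∏ (1 - g p) ≥ exp (-2 ∑ g)` as `g ≤ 1/2`; so it is `≤ (1 + x_c) ∏ (1 - g)`. Level: `(√w) ^ (4(c+1)+4) w ^ (2c) = w ^ (4c+4)`. Finally
`exp (κ 4⁻ᶜ) ≤ 1 + ep` for some `c`. -/
def BH_stmt : Prop := ∀ ep : ℝ, 0 < ep → ∃ b : ℕ, ∀ w : ℝ, 1 ≤ w → ∃ l : Finset ℕ → ℝ, BHW ep b w l

/-- **TP** (triples; short). `card_powersetCard`; `Pool.Agent.Lib.BrunHooley.es_le_pow_div`. -/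
def TP_stmt : Prop := (∀ T : Finset ℕ, Sg c3 T = (T.card.choose 3 : ℝ)) ∧
  ∀ (g : ℕ → ℝ) (P : Finset ℕ), (∀ p ∈ P, 0 ≤ g p) → 0 ≤ Mn c3 g P ∧ Mn c3 g P ≤ (∑ p ∈ P, g p) ^ 3 / 6

/-- **SD** (short). `|∏_K g - ∏_K g'| ≤ ∑_(p ∈ K) (g p - g' p) ∏_(K.erase p) g`, sum over `K ∋ p`. -/
def SD_stmt : Prop := ∀ (l : Finset ℕ → ℝ) (g g' : ℕ → ℝ) (P : Finset ℕ), (∀ K ⊆ P, |l K| ≤ 1) →
  (∀ p ∈ P, 0 ≤ g' p ∧ g' p ≤ g p) →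
  |Mn l g P - Mn l g' P| ≤ (∏ p ∈ P, (1 + g p)) * ∑ p ∈ P, (g p - g' p)

/-- **WV** (short). `PP 1 w` is the disjoint union of `PS W ⌊w⌋₊` and `W.primeFactors` (all `≤ W ≤ w`), and
`∏_(p | W) (1 - 1/p) = φ(W)/W` (`Nat.totient_eq_mul_prod_factors`). The elements of `PS W n` are `≥ 3`:
`1 - 1/(p-1) ≤ 1 - 1/p`, `0 ≤ 1 - 2/p ≤ (1 - 1/p)²`. -/
def WV_stmt : Prop := ∀ (W : ℕ) (w : ℝ), 0 < W → 2 ∣ W → (W : ℝ) ≤ w →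
  ∏ p ∈ PS W ⌊w⌋₊, (1 - 1 / ((p : ℝ) - 1)) ≤ (W : ℝ) / Nat.totient W * Vw w ∧
  ∏ p ∈ PS W ⌊w⌋₊, (1 - 2 / (p : ℝ)) ≤ ((W : ℝ) / Nat.totient W * Vw w) ^ 2 ∧
  0 ≤ ∏ p ∈ PS W ⌊w⌋₊, (1 - 1 / ((p : ℝ) - 1)) ∧ 0 ≤ ∏ p ∈ PS W ⌊w⌋₊, (1 - 2 / (p : ℝ)) ∧ 0 < Vw w

/-! ## Part B: expansions -/

/-- **EM** (products; medium). Let `c`, `c'` be the coefficients. `ind τ * ind τ'` is `0` if `τ p ≠ none`, `τ' p ≠ none`,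
`τ p ≠ τ' p` for some `p`, and `ind ρ` otherwise, `ρ p = τ p` if `τ p ≠ none`, `τ' p` otherwise. So `c'' ρ` is the sum of
`c τ * c' τ'` over the compatible pairs with union `ρ`: there are at most `3 ^ card (supp ρ)` pairs (for `p ∈ supp ρ`: only `τ`,
only `τ'` or both), `card (supp τ), card (supp τ') ≤ card (supp ρ)`, `dd ρ ≤ dd τ * dd τ'`. -/
def EM_stmt : Prop := ∀ (ι : Type) [Fintype ι] [DecidableEq ι] (k : ℕ) (pr : ι → ℕ)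
  (A A' : ι → Fin k → Prop) (M M' : ℝ) (h h' : ℕ) (Y Y' : ℝ) (X X' : (ι → Option (Fin k)) → ℝ),
  (∀ p, 1 ≤ pr p) → 0 ≤ M → 0 ≤ M' → 1 ≤ h → 1 ≤ h' → 0 ≤ Y → 0 ≤ Y' →
  Expn pr A M h Y X → Expn pr A' M' h' Y' X' →
  Expn pr (fun p i => A p i ∨ A' p i) (M * M') (3 * h * h') (Y * Y') (fun e => X e * X' e)

/-- **FX** (medium, short). `Phi p (some i) e = 1/(p-1) - (p/(p-1)) [e = some i]`. Expand the product over `supp σ`: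
`c τ = (-1) ^ card (supp τ) ∏_(supp τ) p/(p-1) ∑_(σ ≥ τ) y σ ∏_(supp σ \ supp τ) 1/(p-1)`, where `σ ≥ τ` means `σ p = τ p` on `supp τ`;
`p/(p-1) ≤ 2`, and the sum over `σ` is at most `M ∏_p (1 + k/(p-1))`. `dd τ ≤ dd σ`. (See also
`Pool.Agent.helper39.MT.FF_expand` in Pool/Agent/helper13/MT/TR1.lean.) -/
def FX_stmt : Prop := ∀ (ι : Type) [Fintype ι] [DecidableEq ι] (k : ℕ) (pr : ι → ℕ)
  (A : ι → Fin k → Prop) (M Y : ℝ) (y : (ι → Option (Fin k)) → ℝ), (∀ p, 2 ≤ pr p) → 0 ≤ M →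
  (∀ σ, |y σ| ≤ M) → (∀ σ, y σ ≠ 0 → (dd pr σ : ℝ) ≤ Y ∧ ∀ p i, σ p = some i → A p i) →
  Expn pr A (M * ∏ p, (1 + (k : ℝ) / ((pr p : ℝ) - 1))) 2 Y (FF pr y)

/-- **SX** (medium, short). `c τ = l ((supp τ).image pr)` if all labels of `τ` are `m` or `m'` and `pr p ∈ P` on `supp τ`, `0`
otherwise. For given `e` the `τ` with `ind τ e = 1` of this kind correspond to the subsets `K = (supp τ).image pr` of
`(TS pr m e ∪ TS pr m' e) ∩ P`. `dd pr τ = ∏_K p`. -/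
def SX_stmt : Prop := ∀ (ι : Type) [Fintype ι] [DecidableEq ι] (k : ℕ) (pr : ι → ℕ)
  (l : Finset ℕ → ℝ) (P : Finset ℕ) (m m' : Fin k) (Y : ℝ), Function.Injective pr →
  (∀ K ⊆ P, |l K| ≤ 1 ∧ (l K ≠ 0 → ∏ p ∈ K, (p : ℝ) ≤ Y)) →
  Expn pr (fun p i => (i = m ∨ i = m') ∧ pr p ∈ P) 1 1 Y (SU pr l P m m')

/-- **EV** (the expectation of `SU`; medium, short). `SU pr l P m m' e = ∑_(K ⊆ P) l K [K ⊆ TS pr m e ∪ TS pr m' e]`, and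
the indicator is a product over the places, `1` if `pr p ∉ K`; expectation of a product: `Finset.prod_univ_sum`. -/
def EV_stmt : Prop := ∀ (ι : Type) [Fintype ι] [DecidableEq ι] (k : ℕ) (pr : ι → ℕ)
  (l : Finset ℕ → ℝ) (P : Finset ℕ) (m m' : Fin k) (μ : ι → Option (Fin k) → ℝ) (g : ℕ → ℝ),
  Function.Injective pr → (∀ p, ∑ x, μ p x = 1) → (∀ n ∈ P, ∃ p, pr p = n) →
  (∀ p, g (pr p) = if m = m' then μ p (some m) else μ p (some m) + μ p (some m')) →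
  Ex μ (SU pr l P m m') = Mn l g P

/-- **IN** (independence; medium). With the coefficients `c`, `c'`:
`Ex (ind τ) = ∏_(supp τ) μ p (τ p)`; if `supp τ`, `supp τ'` are disjoint, `Ex (ind τ * ind τ') = Ex (ind τ) Ex (ind τ')`. Otherwise
(if `c τ, c' τ' ≠ 0`) the labels at a common place are different, so `ind τ * ind τ' = 0`, the common places are in `S`, and
`Ex (ind τ) Ex (ind τ') ≤ ∏_(supp τ) q p ∏_(supp τ') q p`. The sum over all `τ`, `τ'` with `p` in both supports of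
`M h ^ card ∏ q * M' h' ^ card ∏ q` is at most `M M' (k h q p) (k h' q p) ∏ (1 + k h q) ∏ (1 + k h' q)`. -/
def IN_stmt : Prop := ∀ (ι : Type) [Fintype ι] [DecidableEq ι] (k : ℕ) (pr : ι → ℕ)
  (A A' : ι → Fin k → Prop) (M M' : ℝ) (h h' : ℕ) (Y Y' : ℝ) (X X' : (ι → Option (Fin k)) → ℝ)
  (μ : ι → Option (Fin k) → ℝ) (q : ι → ℝ) (S : Finset ι),
  (∀ p, ∑ x, μ p x = 1) → (∀ p i, 0 ≤ μ p (some i) ∧ μ p (some i) ≤ q p) → 0 ≤ M → 0 ≤ M' →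
  Expn pr A M h Y X → Expn pr A' M' h' Y' X' → (∀ p i j, A p i → A' p j → i ≠ j ∧ p ∈ S) →
  |Ex μ (fun e => X e * X' e) - Ex μ X * Ex μ X'| ≤
    M * M' * (∏ p, (1 + k * h * q p)) * (∏ p, (1 + k * h' * q p)) * ∑ p ∈ S, (k * h * q p) * (k * h' * q p)

/-- **CE** (conditional expectation; medium). Let `ν p none = μ p none + μ p (some m) + μ p (some m')`, `ν p (some i) = 0` for
`i = m, m'` and `μ p (some i)` otherwise. Sorting the `e` by `f = rem2 m m' e`: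
`Ex μ (G (rem2 e) [K ⊆ TS m e ∪ TS m' e]) = ∑_f (∏ ν p (f p)) G f ∏_(q ∈ K) g q` if no place with `pr p ∈ K` is in `supp f`, and `0`
for the other `f`. So the left side is `∑_f (∏ ν) G f Mn l g Q_f`, `Q_f` the `pr p ∈ P` with `f p = none`, and
`Mn l g Q_f ≤ (1 + ep) ∏_(Q_f) (1 - g)`, `ν p none (1 - g (pr p)) = μ p none`. -/
def CE_stmt : Prop := ∀ (ι : Type) [Fintype ι] [DecidableEq ι] (k : ℕ) (pr : ι → ℕ)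
  (μ : ι → Option (Fin k) → ℝ) (m m' : Fin k) (G : (ι → Option (Fin k)) → ℝ) (l : Finset ℕ → ℝ)
  (P : Finset ℕ) (g : ℕ → ℝ) (ep : ℝ), Function.Injective pr → m ≠ m' → (∀ p x, 0 ≤ μ p x) →
  (∀ p, 0 < μ p none) → 0 ≤ ep → (∀ e, 0 ≤ G e) →
  (∀ p, g (pr p) * (μ p none + μ p (some m) + μ p (some m')) = μ p (some m) + μ p (some m')) →
  (∀ Q ⊆ P, Q ⊆ univ.image pr → Mn l g Q ≤ (1 + ep) * ∏ p ∈ Q, (1 - g p)) →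
  Ex μ (fun e => G (rem2 m m' e) * SU pr l P m m' e) ≤
    (1 + ep) * Ex (kap μ (univ.filter fun p => pr p ∈ P) m m') G

/-- **RZ** (short). If `z σ ≠ 0` then for `σ p = some i` we have `i ≠ m, m'`, and `e p = some i ↔ rem2 m m' e p = some i`. -/
def RZ_stmt : Prop := ∀ (ι : Type) [Fintype ι] [DecidableEq ι] (k : ℕ) (pr : ι → ℕ) (m m' : Fin k)
  (z : (ι → Option (Fin k)) → ℝ), (∀ σ, z σ ≠ 0 → ∀ p, σ p ≠ some m ∧ σ p ≠ some m') →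
  ∀ e, FF pr z (rem2 m m' e) = FF pr z e

/-- **FA** (the quadratic form, form `m` prime; medium). As `Pool.Agent.helper85.FC.form_upper1`
(Pool/Agent/helper70/FC/M1.lean, with `tensor`): one place, `q = 1/(p-1) ≤ 1/8`, `v` with `v m = v m' = 0`,
`Σ = ∑ v_j`, `Q = ∑ v_j²`, `B = v₀ + q Σ`; the linear form is `B` at `none` and `B - (1+q) v_j` at `some j`, `j ≠ m, m'` (each with
weight `q`; there are `k - 2`). For `p ∈ S` the weight of `none` is `1 - (k-1) q` and the form is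
`(1-q) B² - 2q(1+q) B Σ + q (1+q)² Q = (1-q) v₀² - 4q² v₀ Σ - q² (1+3q) Σ² + q (1+q)² Q ≤ (1 - q + 4q²) v₀² + q (1+q)² Q`
`≤ (1-q) (1+8q²) (v₀² + q (1+4q) Q)`. For `p ∉ S` the weight of `none` is `1 - (k-2) q` and the form is
`v₀² - 2q² v₀ Σ - q² (1+2q) Σ² + q (1+q)² Q ≤ (1+q²) v₀² + q (1+q)² Q ≤ (1+8q²) (v₀² + q (1+4q) Q)`. -/
def FA_stmt : Prop := ∀ (ι : Type) [Fintype ι] [DecidableEq ι] (k : ℕ) (pr : ι → ℕ) (m m' : Fin k)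
  (S : Finset ι) (z : (ι → Option (Fin k)) → ℝ), m ≠ m' → (∀ p, 9 ≤ pr p ∧ 2 * k + 2 ≤ pr p) →
  (∀ σ, z σ ≠ 0 → ∀ p, σ p ≠ some m ∧ σ p ≠ some m') →
  Ex (kap (fun p => mu1 m (pr p : ℝ)) S m m') (fun e => FF pr z e ^ 2) ≤
    (∏ p ∈ S, (1 - 1 / ((pr p : ℝ) - 1))) * QF pr z

/-- **FB** (the quadratic form, all integers; medium). As FA with `r = 1/p`, `q = 1/(p-1)`, `r (1+q) = q`: the weight of
`some j` is `r`. For `p ∈ S` the weight of `none` is `1 - k r` and the form is `(1-2r) B² - 2q B Σ + q (1+q) Q`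
`= (1-2r) v₀² - 4 r q v₀ Σ - q² (1+2r) Σ² + q (1+q) Q ≤ (1 - 2r + 4r²) v₀² + q (1+q) Q ≤ (1-2r) (1+8q²) (v₀² + q (1+4q) Q)`; for
`p ∉ S` it is `1 - (k-2) r` and the form is `v₀² - q² Σ² + q (1+q) Q`. -/
def FB_stmt : Prop := ∀ (ι : Type) [Fintype ι] [DecidableEq ι] (k : ℕ) (pr : ι → ℕ) (m m' : Fin k)
  (S : Finset ι) (z : (ι → Option (Fin k)) → ℝ), m ≠ m' → (∀ p, 9 ≤ pr p ∧ 2 * k + 2 ≤ pr p) →
  (∀ σ, z σ ≠ 0 → ∀ p, σ p ≠ some m ∧ σ p ≠ some m') →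
  Ex (kap (fun p => mu0 (pr p : ℝ)) S m m') (fun e => FF pr z e ^ 2) ≤
    (∏ p ∈ S, (1 - 2 / (pr p : ℝ))) * QF pr z

/-- **PD** (short). As `Pool.Agent.helper39.MT.prod_small` (Pool/Agent/helper17/MT/TR10a.lean; its hypothesis on small
primes is not used in the proof). -/
def PD_stmt : Prop := ∀ h : ℕ, ∃ C : ℝ, 0 < C ∧ ∀ W R : ℕ, 2 ≤ R →
  ∏ p : PS W R, (1 + (h : ℝ) / (((p : ℕ) : ℝ) - 1)) ≤ C * Real.log R ^ h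

/-- **QB** (short). `∑_σ ∏ .. = ∏_p (1 + k q (1+4q))` (`Finset.prod_univ_sum` or `Fintype.piFinset`), `4q ≤ 1`, `8q² ≤ 8q`. -/
def QB_stmt : Prop := ∀ (ι : Type) [Fintype ι] [DecidableEq ι] (k : ℕ) (pr : ι → ℕ) (M : ℝ)
  (z : (ι → Option (Fin k)) → ℝ), (∀ p, 5 ≤ pr p) → 0 ≤ M → (∀ σ, |z σ| ≤ M) →
  0 ≤ QF pr z ∧ QF pr z ≤ M ^ 2 * (∏ p, (1 + ((2 * k + 8 : ℕ) : ℝ) / ((pr p : ℝ) - 1))) ^ 2

/-- **XE** (short, medium). From EM, FX, SX. `FF ^ 2`: FX and EM, `3 * 2 * 2 = 12`; `SX` for `l₀` (`3 * 12 = 36`), for `l`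
(`3 * 36 = 108`) resp. `(SU l P m m) (SU l P m' m') (SU c3 P' m' m')`: `3`, `9`, and `3 * 36 * 9 = 972`. `Expn.mono`. -/
def XE_stmt : Prop := ∀ (ι : Type) [Fintype ι] [DecidableEq ι] (k : ℕ) (pr : ι → ℕ)
  (ζ : (ι → Option (Fin k)) → ℝ) (l₀ l : Finset ℕ → ℝ) (w : ℝ) (P P' : Finset ℕ) (m m' : Fin k)
  (M Y₀ Y₁ Y₂ Y₃ : ℝ), Function.Injective pr → (∀ p, 2 ≤ pr p) → 0 ≤ M → 1 ≤ Y₀ → 1 ≤ Y₁ → 1 ≤ Y₂ →
  1 ≤ Y₃ → (∀ σ, |ζ σ| ≤ M) →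
  (∀ σ, ζ σ ≠ 0 → (dd pr σ : ℝ) ≤ Y₀ ∧ ∀ p, σ p ≠ some m ∧ σ p ≠ some m') →
  (∀ K ⊆ RLS.PP 1 w, |l₀ K| ≤ 1 ∧ (l₀ K ≠ 0 → ∏ p ∈ K, (p : ℝ) ≤ Y₁)) →
  (∀ K ⊆ P, |l K| ≤ 1 ∧ (l K ≠ 0 → ∏ p ∈ K, (p : ℝ) ≤ Y₂)) →
  (∀ K ⊆ P', c3 K ≠ 0 → ∏ p ∈ K, (p : ℝ) ≤ Y₃) →
  Expn pr (fun p i => (i ≠ m ∧ i ≠ m') ∨ ((i = m ∨ i = m') ∧ pr p ∈ RLS.PP 1 w))
    (M ^ 2 * (∏ p, (1 + (k : ℝ) / ((pr p : ℝ) - 1))) ^ 2) 36 (Y₀ ^ 2 * Y₁)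
    (fun e => FF pr ζ e ^ 2 * SU pr l₀ (RLS.PP 1 w) m m' e) ∧
  Expn pr (fun p i => i = m ∧ pr p ∈ P) 1 1 Y₂ (SU pr l P m m) ∧
  Expn pr (fun p i => i = m' ∧ pr p ∈ P) 1 1 Y₂ (SU pr l P m' m') ∧
  Expn pr (fun p i => i = m' ∧ pr p ∈ P') 1 1 Y₃ (SU pr c3 P' m' m') ∧
  Expn pr (fun p i => (i = m ∨ i = m') ∧ pr p ∈ P) 1 3 (Y₂ ^ 2) (fun e => SU pr l P m m e * SU pr l P m' m' e) ∧
  Expn pr (fun p i => (i = m ∨ i = m') ∧ pr p ∈ P ∪ P') 1 9 (Y₂ ^ 2 * Y₃)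
    (fun e => SU pr l P m m e * SU pr l P m' m' e * SU pr c3 P' m' m' e) ∧
  Expn pr (fun _ _ => True) (M ^ 2 * (∏ p, (1 + (k : ℝ) / ((pr p : ℝ) - 1))) ^ 2) 108 (Y₀ ^ 2 * Y₁ * Y₂)
    (XA pr ζ l₀ l w P m m') ∧
  Expn pr (fun _ _ => True) (M ^ 2 * (∏ p, (1 + (k : ℝ) / ((pr p : ℝ) - 1))) ^ 2) 972
    (Y₀ ^ 2 * Y₁ * (Y₂ ^ 2 * Y₃)) (XB pr ζ l₀ l w P P' m m')

/-! ## Part C: sums over `n` -/

/-- **TA** (form `m` prime, level `1/2`; medium). Copy of `Pool.Agent.helper85.FC.T5_core` and `T5_S2_gen_of`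
(Pool/Agent/helper38/FC/T5.lean): with the coefficients `c τ` of `X`, use `S2_one` for each `ind τ`
(Pool/Agent/helper38/FC/T4.lean), `bv` (Pool/Agent/helper85/FC/BV.lean), `sum_labels'`, `pow_omega_le`. -/
def TA_stmt : Prop := ∀ (k D₀ W : ℕ) (A B : Fin k → ℕ), Std k D₀ A B W → 2 ≤ k → 4 * k + 4 ≤ D₀ →
  ∀ ε : ℝ, 0 < ε → ε ≤ 1 / 4 → ∀ (K K' h : ℕ) (m : Fin k), ∃ a₁ : ℝ, ∀ a : ℝ, a₁ ≤ a → ∀ R : ℕ, 2 ≤ R →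
  (R : ℝ) ≤ Real.exp (a / 2) → ∀ X : (PS W R → Option (Fin k)) → ℝ,
  Expn (prP W R) (fun _ _ => True) (a ^ K') h (Real.exp ((1 / 2 - ε) * a)) X →
  |∑ n ∈ Ioc 0 (NN 1 a), wt 1 a n * lam (A m * n + B m) * X (pat A B (PS W R) n)
    - (W : ℝ) / Nat.totient W * pmass (a + Real.log (A m)) * Ex (fun p : PS W R => mu1 m (p : ℝ)) X| ≤ 1 / a ^ K

/-- **TB** (all integers, level `1`; medium). Copy of `Pool.Agent.helper85.FC.S1_gen` (Pool/Agent/helper99/FC/T3.lean), with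
the coefficients `c τ` of `X`; each `τ` contributes an error `≤ |c τ| C exp (-a)` (`wt_equi1`). For the sum of the `|c τ|` over
`dd τ ≤ exp ((1-ε) a)`: `sum_labels'` and `n ^ ω(D) ≤ C D ^ (ε/4)` (copy the proof of `pow_omega_le`,
Pool/Agent/helper17/MT/TR10a.lean). -/
def TB_stmt : Prop := ∀ (k D₀ W : ℕ) (A B : Fin k → ℕ), Std k D₀ A B W → 4 * k + 4 ≤ D₀ →
  ∀ ε : ℝ, 0 < ε → ε ≤ 1 / 4 → ∀ (K K' h : ℕ), ∃ a₁ : ℝ, ∀ a : ℝ, a₁ ≤ a → ∀ R : ℕ, 2 ≤ R →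
  (R : ℝ) ≤ Real.exp a → ∀ X : (PS W R → Option (Fin k)) → ℝ,
  Expn (prP W R) (fun _ _ => True) (a ^ K') h (Real.exp ((1 - ε) * a)) X →
  |∑ n ∈ Ioc 0 (NN 1 a), wt 1 a n * X (pat A B (PS W R) n)
    - mass a * Ex (fun p : PS W R => mu0 (p : ℝ)) X| ≤ 1 / a ^ K

/-- **MA** (the model for XA; medium, long). From EV, IN, CE, RZ, FA, PD, QB, XE, SD. `w = exp (δ a)`, `q = 1/(p-1)`. (1) XE (`Y₀ = exp a`, the
other levels huge), IN for `X₁ = FF² SU l₀` and `X₂ = SU l P m' m'` (`μ = mu1 m`, `S` the places with `pr p > w`; labels `m`, `m'` occur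
in `X₁` only at primes `≤ w`): `|Ex (X₁ X₂) - Ex X₁ Ex X₂| ≤ a ^ C / w`, since all products over the places are `≤ a ^ C` (PD) and
`∑_(p > w) q² ≤ 4/w`. (2) `Ex X₂ = Mn l (1/(p-1)) P` (EV) `≤ U + a ^ C / w` (SD). `P ⊆ PS W R` as the elements are
`> w ≥ W` and `≤ exp (a/5) ≤ R`. (3) `X₁ e = G (rem2 e) SU l₀` with `G = FF²` (RZ); CE with `g (pr p) = 1/(p-k+1)` (and the hypothesis
by `BHW.upp`: `g ≤ 1/2`, `g ≤ 4/p` as `p > 4k+4`), and FA: `0 ≤ Ex X₁ ≤ (1+ep) ∏_S (1 - 1/(p-1)) QF`; the places with `pr p ∈ PP 1 w`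
are the elements of `PS W ⌊w⌋₊`. (4) QB: `QF ≤ a ^ C`. -/
def MA_stmt : Prop := ∀ (k b D₀ W : ℕ) (δ ep : ℝ), 2 ≤ k → 0 < δ → δ ≤ 1 / 8 → 0 ≤ ep → ep ≤ 1 →
  0 < W → 4 * k + 4 ≤ D₀ → (∀ p : ℕ, p.Prime → p ≤ D₀ → p ∣ W) →
  ∃ (C : ℕ) (a₁ : ℝ), ∀ a : ℝ, a₁ ≤ a → ∀ R : ℕ, R = ⌊Real.exp (a / 4)⌋₊ →
  ∀ (ζ : (PS W R → Option (Fin k)) → ℝ) (m m' : Fin k) (l₀ l : Finset ℕ → ℝ) (P : Finset ℕ) (U : ℝ),
  m ≠ m' → (∀ σ, |ζ σ| ≤ a ^ 3) →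
  (∀ σ, ζ σ ≠ 0 → (dd (prP W R) σ : ℝ) ≤ Real.exp a ∧ ∀ p, σ p ≠ some m ∧ σ p ≠ some m') →
  BHW ep b (Real.exp (δ * a)) l₀ → P ⊆ RLS.PP (Real.exp (δ * a)) (Real.exp (a / 5)) →
  (∀ K ⊆ P, |l K| ≤ 1) → 0 ≤ U → Mn l gi P ≤ U →
  Ex (fun p : PS W R => mu1 m (p : ℝ)) (XA (prP W R) ζ l₀ l (Real.exp (δ * a)) P m m') ≤
    (1 + ep) * (∏ p ∈ PS W ⌊Real.exp (δ * a)⌋₊, (1 - 1 / ((p : ℝ) - 1))) * QF (prP W R) ζ * U +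
      a ^ C * Real.exp (-(δ * a))

/-- **MB** (the model for XB; medium, long). From EV, IN, CE, RZ, FB, PD, QB, XE. As MA with `μ = mu0`, `X₂ = (SU l P m m) (SU l P m' m')
(SU c3 P' m' m')`, `g (pr p) = 2/(p-k+2)`. `Ex X₂`: twice IN (labels `m`, `m'` are different; the primes of `P` and `P'` are
different) and EV (`g = gi`): `Ex X₂ ≤ (Mn l gi P)² Mn c3 gi P' + a ^ C / w`; `0 ≤ Mn l gi P = Ex (SU l P m m)` since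
`Sg l T ≥ 0`. -/
def MB_stmt : Prop := ∀ (k b D₀ W : ℕ) (δ ep : ℝ), 2 ≤ k → 0 < δ → δ ≤ 1 / 8 → 0 ≤ ep → ep ≤ 1 →
  0 < W → 4 * k + 4 ≤ D₀ → (∀ p : ℕ, p.Prime → p ≤ D₀ → p ∣ W) →
  ∃ (C : ℕ) (a₁ : ℝ), ∀ a : ℝ, a₁ ≤ a → ∀ R : ℕ, R = ⌊Real.exp (a / 4)⌋₊ →
  ∀ (ζ : (PS W R → Option (Fin k)) → ℝ) (m m' : Fin k) (l₀ l : Finset ℕ → ℝ) (P P' : Finset ℕ) (U U' : ℝ),
  m ≠ m' → (∀ σ, |ζ σ| ≤ a ^ 3) →
  (∀ σ, ζ σ ≠ 0 → (dd (prP W R) σ : ℝ) ≤ Real.exp a ∧ ∀ p, σ p ≠ some m ∧ σ p ≠ some m') →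
  BHW ep b (Real.exp (δ * a)) l₀ → P ⊆ RLS.PP (Real.exp (δ * a)) (Real.exp (a / 8)) →
  P' ⊆ RLS.PP (Real.exp (a / 8)) (Real.exp (a / 5)) →
  (∀ K ⊆ P, |l K| ≤ 1) → (∀ T ⊆ P, 0 ≤ Sg l T) → Mn l gi P ≤ U → Mn c3 gi P' ≤ U' →
  Ex (fun p : PS W R => mu0 (p : ℝ)) (XB (prP W R) ζ l₀ l (Real.exp (δ * a)) P P' m m') ≤
    (1 + ep) * (∏ p ∈ PS W ⌊Real.exp (δ * a)⌋₊, (1 - 2 / (p : ℝ))) * QF (prP W R) ζ * (U ^ 2 * U') +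
      a ^ C * Real.exp (-(δ * a))

/-- **PA** (medium). From TA, MA, XE, PD. XE: `XA` has level `exp (2 η a) exp (δ b a) exp (la a) ≤ exp ((1/2 - η) a)` and coefficients
`≤ a ^ K' * 108 ^ card` (PD, `log R ≤ a/4`); TA with `ε = η`, `K = 4`; MA; `pmass ≤ 2` for large arguments (`pmass_mass`,
`mass_bounds`). -/
def PA_stmt : Prop := ∀ (k D₀ W : ℕ) (A B : Fin k → ℕ), Std k D₀ A B W → 2 ≤ k → 4 * k + 4 ≤ D₀ →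
  ∀ (b : ℕ) (δ ep η la : ℝ), 0 < δ → δ ≤ 1 / 8 → 0 ≤ ep → ep ≤ 1 → 0 < η → η ≤ 1 / 8 → 0 ≤ la →
  2 * η + δ * b + la ≤ 1 / 2 - η →
  ∃ a₁ : ℝ, ∀ a : ℝ, a₁ ≤ a → ∀ R : ℕ, R = ⌊Real.exp (a / 4)⌋₊ →
  ∀ (ζ : (PS W R → Option (Fin k)) → ℝ) (m m' : Fin k) (l₀ l : Finset ℕ → ℝ) (P : Finset ℕ) (U : ℝ),
  m ≠ m' → (∀ σ, |ζ σ| ≤ a ^ 3) →
  (∀ σ, ζ σ ≠ 0 → (dd (prP W R) σ : ℝ) ≤ Real.exp (η * a) ∧ ∀ p, σ p ≠ some m ∧ σ p ≠ some m') →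
  BHW ep b (Real.exp (δ * a)) l₀ → P ⊆ RLS.PP (Real.exp (δ * a)) (Real.exp (a / 5)) →
  (∀ K ⊆ P, |l K| ≤ 1 ∧ (l K ≠ 0 → ∏ p ∈ K, (p : ℝ) ≤ Real.exp (la * a))) → 0 ≤ U → Mn l gi P ≤ U →
  ∑ n ∈ Ioc 0 (NN 1 a), wt 1 a n * lam (A m * n + B m) *
      XA (prP W R) ζ l₀ l (Real.exp (δ * a)) P m m' (pat A B (PS W R) n) ≤
    (W : ℝ) / Nat.totient W * pmass (a + Real.log (A m)) *
      ((1 + ep) * (∏ p ∈ PS W ⌊Real.exp (δ * a)⌋₊, (1 - 1 / ((p : ℝ) - 1))) * QF (prP W R) ζ * U) + 1 / a ^ 3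

/-- **PT** (medium). From TB, MB, XE, PD. As PA, with TB (`ε = η`, `K = 5`) and MB; the level of `c3` on `P'` is `exp (3 ly a)`;
`mass ≤ 1`. -/
def PT_stmt : Prop := ∀ (k D₀ W : ℕ) (A B : Fin k → ℕ), Std k D₀ A B W → 2 ≤ k → 4 * k + 4 ≤ D₀ →
  ∀ (b : ℕ) (δ ep η la ly : ℝ), 0 < δ → δ ≤ 1 / 8 → 0 ≤ ep → ep ≤ 1 → 0 < η → η ≤ 1 / 8 → 0 ≤ la →
  0 ≤ ly → ly ≤ 1 / 5 → 2 * η + δ * b + 2 * la + 3 * ly ≤ 1 - η →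
  ∃ a₁ : ℝ, ∀ a : ℝ, a₁ ≤ a → ∀ R : ℕ, R = ⌊Real.exp (a / 4)⌋₊ →
  ∀ (ζ : (PS W R → Option (Fin k)) → ℝ) (m m' : Fin k) (l₀ l : Finset ℕ → ℝ) (P P' : Finset ℕ) (U U' : ℝ),
  m ≠ m' → (∀ σ, |ζ σ| ≤ a ^ 3) →
  (∀ σ, ζ σ ≠ 0 → (dd (prP W R) σ : ℝ) ≤ Real.exp (η * a) ∧ ∀ p, σ p ≠ some m ∧ σ p ≠ some m') →
  BHW ep b (Real.exp (δ * a)) l₀ → P ⊆ RLS.PP (Real.exp (δ * a)) (Real.exp (a / 8)) →
  P' ⊆ RLS.PP (Real.exp (a / 8)) (Real.exp (ly * a)) →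
  (∀ K ⊆ P, |l K| ≤ 1 ∧ (l K ≠ 0 → ∏ p ∈ K, (p : ℝ) ≤ Real.exp (la * a))) → (∀ T ⊆ P, 0 ≤ Sg l T) →
  Mn l gi P ≤ U → Mn c3 gi P' ≤ U' →
  ∑ n ∈ Ioc 0 (NN 1 a), wt 1 a n *
      XB (prP W R) ζ l₀ l (Real.exp (δ * a)) P P' m m' (pat A B (PS W R) n) ≤
    mass a * ((1 + ep) * (∏ p ∈ PS W ⌊Real.exp (δ * a)⌋₊, (1 - 2 / (p : ℝ))) * QF (prP W R) ζ *
      (U ^ 2 * U')) + 1 / a ^ 4

/-- **PW** (pointwise; medium, short). From MP, TP. `T = TS pr m' e`. `XB ≥ 0`: `RLS.SI_all`, TP. Second claim (`TS pr m e = ∅`): both are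
`FF² Sg l₀ (T ∩ PP 1 w)` times something, `T' = T ∩ PP w y`. If `T'.filter (≤ z) ≠ ∅`: `Sg (lM L z) T' ≥ 0` by MP. Otherwise
`T ∩ PP w v = ∅`, `Sg (lam true L') ∅ = 1` (also for `m`), `T' = T ∩ PP z y`, `Sg c3 T' = choose (card T') 3`, and MP. Third
claim: all sets are empty, `Sg (lM L z) ∅ = lM L z ∅ = 1`. -/
def PW_stmt : Prop := ∀ (ι : Type) [Fintype ι] [DecidableEq ι] (k : ℕ) (pr : ι → ℕ)
  (ζ : (ι → Option (Fin k)) → ℝ) (l₀ : Finset ℕ → ℝ) (w v z y L L' : ℝ) (m m' : Fin k)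
  (e : ι → Option (Fin k)), m ≠ m' → 1 ≤ w → w ≤ v → v ≤ z → z ≤ y → l₀ ∅ = 1 →
  (∀ T ⊆ RLS.PP 1 w, 0 ≤ Sg l₀ T) →
  0 ≤ XB pr ζ l₀ (RLS.lam true L') w (RLS.PP w v) (RLS.PP z y) m m' e ∧
  ((∀ p, e p ≠ some m) → 0 ≤ XA pr ζ l₀ (lM L z) w (RLS.PP w y) m m' e +
    XB pr ζ l₀ (RLS.lam true L') w (RLS.PP w v) (RLS.PP z y) m m' e / 2) ∧
  ((∀ p, e p ≠ some m ∧ e p ≠ some m') → XA pr ζ l₀ (lM L z) w (RLS.PP w y) m m' e = FF pr ζ e ^ 2)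

/-- **PC** (pointwise at `n`; medium, short). From PW. See the end of the proof of `Pool.Agent.helper85.FC.cluster_std`
(Pool/Agent/helper85/FC/F1.lean). If `wt 1 a n = 0` all is `0`; otherwise `n > R` (`F1_wt_support`), and if `A_i n + B_i` is prime, no
`p ∈ PS W R` divides it, so `pat ≠ some i` (`F1_pat`). `e = pat n`. If `L_m` is not prime: left side `0`, right side
`wt XB a'² / 2 ≥ 0`. If `L_m` is prime and `L_m'` is not: left side `0`; `lam (L_m) ≤ a'` and `XB ≥ 0`, so the right side is at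
least `a' wt lam (L_m) (XA + XB/2) ≥ 0`. If both are prime: `FF y e = FF ζ e`, `XA = FF ζ e ^ 2`, `lam (L_m') ≤ a'`. -/
def PC_stmt : Prop := ∀ (k D₀ W : ℕ) (A B : Fin k → ℕ), Std k D₀ A B W → ∀ (a a' : ℝ) (R n : ℕ),
  1 ≤ a → R = ⌊Real.exp (a / 4)⌋₊ → 0 < n → 0 ≤ a' → (wt 1 a n ≠ 0 → ∀ i, lam (A i * n + B i) ≤ a') →
  ∀ (y ζ : (PS W R → Option (Fin k)) → ℝ) (m m' : Fin k) (l₀ : Finset ℕ → ℝ) (w v x x' L L' : ℝ),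
  m ≠ m' → 1 ≤ w → w ≤ v → v ≤ x → x ≤ x' → l₀ ∅ = 1 → (∀ T ⊆ RLS.PP 1 w, 0 ≤ Sg l₀ T) →
  (∀ e : PS W R → Option (Fin k), (∀ p, e p ≠ some m ∧ e p ≠ some m') →
    FF (prP W R) ζ e = FF (prP W R) y e) →
  wt 1 a n * FF (prP W R) y (pat A B (PS W R) n) ^ 2 * (lam (A m * n + B m) * lam (A m' * n + B m')) ≤
    a' * (wt 1 a n * lam (A m * n + B m) *
      XA (prP W R) ζ l₀ (lM L x) w (RLS.PP w x') m m' (pat A B (PS W R) n)) +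
    a' ^ 2 / 2 * (wt 1 a n *
      XB (prP W R) ζ l₀ (RLS.lam true L') w (RLS.PP w v) (RLS.PP x x') m m' (pat A B (PS W R) n))

/-- **PN** (numbers; short). `log (26/25) ≤ x - x²/2 + x³/3 - x⁴/4 + x⁵/5`, `x = 1/25`; `≤ 0.0392208`. The value is about
`3.99968`. -/
def PN_stmt : Prop := ∀ la lb : ℝ, 1 / 2 - 1 / 10 ^ 6 ≤ la → 37 / 152 - 1 / 10 ^ 6 ≤ lb →
  (1 + 1 / 10 ^ 7) ^ 6 * (2 / la * (1 - 1 / 6000 + 1 / 10 ^ 7) +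
    1 / 2 * (2 / lb) ^ 2 * ((Real.log (26 / 25) + 1 / 10 ^ 7) ^ 3 / 6)) ≤ 4 - 3 / 10 ^ 4

/-- **PB** (the pair bound; medium, long). From PM, MP, MW, SV, BH, TP, WV, QB, PA, PT, PC, PN. `eps = ep = η = 10⁻⁷`; `u₀` from SV, `b` from BH;
`δ ≤ 10⁻⁷/(b+1)`, `δ ≤ 1/(10 u₀)`, `δ ≤ 1/1000`; `la = 1/2 - 3 η - δ b`, `lb = 37/152 - (3 η + δ b)/2`, `w = exp (δ a)`,
`L = la a`, `L' = lb a`, `v = exp (L'/3)`, `z = exp (25/76 L)`, `y = exp (13/38 L)`; `v ≤ exp (a/8) ≤ z`, `y ≤ exp (13/38 la a)`,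
`ly = 13/38 la ≤ 13/76`. `u = la/δ` resp. `lb/δ` in SV: with `V = Vw w`, `U = (2/L)(1 - 1/6000 + eps)/V`, `U₁ = (2/L')(1 + eps)/V`, and
`U₂ = (log (26/25) + 10⁻⁷)³/6` (TP, PM with `ψ = 1`). MP, MW give `|lM| ≤ 1` and the levels (`2 log z + log y = L`). Sum PC over `n` with
`a' = (1 + 10⁻⁷) a` (`log (A n + B) ≤ a'` on the support, see `hlog` in F1.lean), insert PA, PT, WV, `pmass ≤ (1 + 10⁻⁷) mass` (`F1_mass`,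
`mass_bounds`); the main terms are `(W/φ(W))² mass QF` times the left side of PN (at most), the others are `a'/a³ + a'²/(2 a⁴) ≤ 1/a`. -/
def PB_stmt : Prop := ∀ (k D₀ W : ℕ) (A B : Fin k → ℕ), Std k D₀ A B W → 2 ≤ k → 4 * k + 4 ≤ D₀ →
  ∃ a₁ : ℝ, ∀ a : ℝ, a₁ ≤ a → ∀ R : ℕ, R = ⌊Real.exp (a / 4)⌋₊ →
  ∀ (y ζ : (PS W R → Option (Fin k)) → ℝ) (m m' : Fin k), m ≠ m' → (∀ σ, |ζ σ| ≤ a ^ 3) →
  (∀ σ, ζ σ ≠ 0 → (dd (prP W R) σ : ℝ) ≤ Real.exp (a / 10 ^ 7) ∧ ∀ p, σ p ≠ some m ∧ σ p ≠ some m') →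
  (∀ e : PS W R → Option (Fin k), (∀ p, e p ≠ some m ∧ e p ≠ some m') →
    FF (prP W R) ζ e = FF (prP W R) y e) →
  ∑ n ∈ Ioc 0 (NN 1 a), wt 1 a n * FF (prP W R) y (pat A B (PS W R) n) ^ 2 *
      (lam (A m * n + B m) * lam (A m' * n + B m')) ≤
    (4 - 3 / 10 ^ 4) * ((W : ℝ) / Nat.totient W) ^ 2 * mass a * QF (prP W R) ζ + 1 / a

/-! ## Part D: the four clusters -/

/-- **MD** (the numbers; medium, long, a copy). `model5` in Pool/Agent/helper85/FC/M5.lean with `k = 4 kc`, `kc = 2 ^ (J + 1)`,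
`k = 8 * 2 ^ J`, and `ζ = hz m m' qP lP 0 (yy lP L (gP J θ))`, with `L = ε a`: its level is `exp (0 + ε a)` (`hz_support`); `ζ σ ≠ 0` implies that
`m` does not occur and `∑_(cls σ m') lP ≤ 0`, so `cls σ m' = ∅` (`lP p = log p > 0`). The bound: `∏ (1 + 8q²) ≤ exp (8 η)`, `hz_form` with
`Y = 0` (the denominator is `≥ 1`, the term `S = ∅`): `QF ≤ exp (68 η) α⁴ βz ^ (k-2)`, and as in `M5_num3`
`E₀ QF ≤ exp (k η + 68 η + 60 (k-2) η) α⁴ β ^ (2k-2) ≤ (1 + ε) α⁴ β ^ (2k-2) ≤ (1 + 4ε) ((1-ε) α² β ^ (k-1))²`. The new versions of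
`M5_num2`, `M5n_L`, `M5_num3` with `4` are easier. (`M5_lower_final`, `M5_upper_final`, `M5_num1`, ... can be used.) -/
def MD_stmt : Prop := ∀ T ε : ℝ, 0 < ε → ε ≤ 1 / 100 → ∃ kc D₀ : ℕ, 1 ≤ kc ∧
  4 * (4 * kc) + 4 ≤ D₀ ∧ ∀ W : ℕ, 0 < W → (∀ p : ℕ, p.Prime → p ≤ D₀ → p ∣ W) →
  ∃ a₀ : ℝ, ∀ a : ℝ, a₀ ≤ a → ∀ R : ℕ, R = ⌊Real.exp (a / 4)⌋₊ →
  ∃ (y : (PS W R → Option (Fin (4 * kc))) → ℝ) (E₀ E₁ : ℝ),
    (∀ σ, |y σ| ≤ 1) ∧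
    (∀ σ, y σ ≠ 0 → (dd (prP W R) σ : ℝ) ≤ Real.exp (ε * a)) ∧
    1 ≤ E₀ ∧ 1 / 2 ≤ E₁ ∧
    Ex (fun p : PS W R => mu0 (p : ℝ)) (fun e => FF (prP W R) y e ^ 2) ≤ E₀ ∧
    (∀ m, E₁ ≤ Ex (fun p : PS W R => mu1 m (p : ℝ)) (fun e => FF (prP W R) y e ^ 2)) ∧
    T * a * ((Nat.totient W : ℝ) / W) * E₀ ≤ kc * E₁ ∧
    ∀ m m' : Fin (4 * kc), m ≠ m' → ∃ ζ : (PS W R → Option (Fin (4 * kc))) → ℝ,
      (∀ σ, |ζ σ| ≤ a ^ 3) ∧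
      (∀ σ, ζ σ ≠ 0 → (dd (prP W R) σ : ℝ) ≤ Real.exp (ε * a) ∧ ∀ p, σ p ≠ some m ∧ σ p ≠ some m') ∧
      (∀ e : PS W R → Option (Fin (4 * kc)), (∀ p, e p ≠ some m ∧ e p ≠ some m') →
        FF (prP W R) ζ e = FF (prP W R) y e) ∧
      E₀ * QF (prP W R) ζ ≤ (1 + 4 * ε) * E₁ ^ 2

/-- **CR** (the core; medium, short, a copy). `F1_core` in Pool/Agent/helper85/FC/F1.lean, with `Fin 4` and other numbers. With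
`P = kc t`, `X_j ≥ (1 - 10⁻⁵) P`, `Y_j ≤ (1 + 10⁻⁵) a X_j + (4 - 1/4000) P²/G`, `a G ≤ P/10⁵`, `X_j² ≤ s_j Y_j`:
`s_j ≥ (1 + 2/10⁵)/4 G`, and `∑ s_j ≤ (1 + 10⁻⁵) G`. -/
def CR_stmt : Prop := ∀ (kc : ℕ) (I : Finset ℕ) (v : ℕ → ℝ) (lm : Fin (4 * kc) → ℕ → ℝ) (a G t : ℝ),
  1 ≤ kc → 0 < a → 0 < G → 0 < t → (∀ n ∈ I, 0 ≤ v n) → (∀ i n, 0 ≤ lm i n) →
  ∑ n ∈ I, v n ≤ (1 + 1 / 10 ^ 5) * G → (∀ i, (1 - 1 / 10 ^ 5) * t ≤ ∑ n ∈ I, v n * lm i n) →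
  (∀ i, ∀ n ∈ I, v n ≠ 0 → lm i n ≤ (1 + 1 / 10 ^ 5) * a) →
  (∀ i i', i ≠ i' → ∑ n ∈ I, v n * (lm i n * lm i' n) ≤ (4 - 1 / 4000) * t ^ 2 / G) →
  10 ^ 5 * a * G ≤ kc * t →
  (∀ n ∈ I, v n ≠ 0 → ∀ i i', cl4 i ≠ cl4 i' → lm i n = 0 ∨ lm i' n = 0) → False

/-- **ST** (medium, a copy). From PB, MD, CR. `cluster_std` in Pool/Agent/helper85/FC/F1.lean, with MD for `T = 10⁵`,
`ε = 10⁻⁷`, CR for `v n = wt 1 a n * FF y (pat n) ^ 2`, `G = M E₀`, `t = κi M E₁`, and PB for the pairs: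
`(4 - 3/10⁴) κi² M QF + 1/a ≤ (4 - 3/10⁴) (1 + 4ε) t²/G + 1/a ≤ (4 - 1/4000) t²/G` as `t²/G ≥ 1/2`. -/
def ST_stmt : Prop := ∃ kc D₀ : ℕ, 1 ≤ kc ∧ ∀ (A B : Fin (4 * kc) → ℕ) (W : ℕ),
  Std (4 * kc) D₀ A B W → ∀ N : ℕ, ∃ n ≥ N, ∃ i j, cl4 i ≠ cl4 j ∧
    (A i * n + B i).Prime ∧ (A j * n + B j).Prime

/-- **FM** (short, a copy). From ST. `F2_of` in Pool/Agent/helper71/FC/F2.lean. -/
def FM_stmt : Prop := ∃ kc : ℕ, 1 ≤ kc ∧ ∀ (A : Fin (4 * kc) → ℕ) (B : Fin (4 * kc) → ℤ),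
  (∀ i, 0 < A i) → (∀ i j, i ≠ j → (A i : ℤ) * B j ≠ A j * B i) →
  (∀ p : ℕ, p.Prime → ∃ n : ℕ, ∀ i, ¬ (p : ℤ) ∣ A i * n + B i) →
  ∀ N : ℕ, ∃ n ≥ N, ∃ i j, cl4 i ≠ cl4 j ∧
    ((A i : ℤ) * n + B i).toNat.Prime ∧ ((A j : ℤ) * n + B j).toNat.Prime

end Pool.Agent.MK
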